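import Pool.Agent.H564R3.RN.Defs
import Pool.Agent.H564R3.PW.Prog

/-!
Formulas of depth `D` as straight-line programs with `D + 1` registers.
-/

set_option autoImplicit false

namespace Pool.Agent.H564R3.RN

open Finset
open Pool.Agent.H564R3.PW
open Pool.Agent.H564R3.TS
open Pool.Agent.H564R3.TD
open scoped NNReal

theorem RND_len {a b A B : ℕ} (ha : a + 1 ≤ 2 ^ (A + 1)) (hb : b + 1 ≤ 2 ^ (B + 1)) :
    a + (b + 1) + 1 ≤ 2 ^ (max A B + 1 + 1) := by
  have h1 : 2 ^ (A + 1) ≤ 2 ^ (max A B + 1) :=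
    Nat.pow_le_pow_right (by norm_num) (by have := le_max_left A B; omega)
  have h2 : 2 ^ (B + 1) ≤ 2 ^ (max A B + 1) :=
    Nat.pow_le_pow_right (by norm_num) (by have := le_max_right A B; omega)
  rw [pow_succ 2 (max A B + 1)]
  omega

theorem RND_aux {R X : Type} [CommSemiring R] (D : ℕ) (f : Fm R X) :
    ∀ (i : ℕ) (_ : f.depth + i ≤ D), ∃ p : List (Instr R X (Fin (D + 1))),
      p.length + 1 ≤ 2 ^ (f.depth + 1) ∧ ∀ (w : X → R) (v : Fin (D + 1) → R),
        (∀ r : Fin (D + 1), r.val < i → runs w p v r = v r) ∧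
          ∀ hi : i < D + 1, runs w p v ⟨i, hi⟩ = f.eval w := by
  induction f with
  | var x =>
    intro i hi
    have hi' : i < D + 1 := by omega
    refine ⟨[.load ⟨i, hi'⟩ x], by simp [Fm.depth], fun w v => ⟨fun r hr => ?_, fun _ => ?_⟩⟩
    · have hne : r ≠ ⟨i, hi'⟩ := by
        intro h
        rw [h] at hr
        exact lt_irrefl _ hr
      simp [runs, Instr.run, Function.update_of_ne hne]
    · simp [runs, Instr.run, Fm.eval]
  | const c =>
    intro i hi
    have hi' : i < D + 1 := by omega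
    refine ⟨[.const ⟨i, hi'⟩ c], by simp [Fm.depth], fun w v => ⟨fun r hr => ?_, fun _ => ?_⟩⟩
    · have hne : r ≠ ⟨i, hi'⟩ := by
        intro h
        rw [h] at hr
        exact lt_irrefl _ hr
      simp [runs, Instr.run, Function.update_of_ne hne]
    · simp [runs, Instr.run, Fm.eval]
  | add f g ihf ihg =>
    intro i hi
    have hd : (Fm.add f g).depth = max f.depth g.depth + 1 := rfl
    rw [hd] at hi
    have hl := le_max_left f.depth g.depth
    have hr' := le_max_right f.depth g.depth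
    have hi' : i < D + 1 := by omega
    have hi1 : i + 1 < D + 1 := by omega
    obtain ⟨p, hp1, hp2⟩ := ihf i (by omega)
    obtain ⟨q, hq1, hq2⟩ := ihg (i + 1) (by omega)
    refine ⟨p ++ (q ++ [.add ⟨i, hi'⟩ ⟨i, hi'⟩ ⟨i + 1, hi1⟩]), ?_, fun w v => ?_⟩
    · rw [hd, List.length_append, List.length_append]
      exact RND_len hp1 hq1
    · rw [L1_runs_append, L1_runs_append]
      obtain ⟨a1, a2⟩ := hp2 w v
      obtain ⟨b1, b2⟩ := hq2 w (runs w p v)
      refine ⟨fun r hr => ?_, fun _ => ?_⟩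
      · have hne : r ≠ ⟨i, hi'⟩ := by
          intro h
          rw [h] at hr
          exact lt_irrefl _ hr
        rw [L1_runs_cons, L1_runs_nil]
        simp only [Instr.run]
        rw [Function.update_of_ne hne, b1 r (by omega), a1 r hr]
      · rw [L1_runs_cons, L1_runs_nil]
        simp only [Instr.run]
        rw [Function.update_self, b2 hi1, b1 ⟨i, hi'⟩ (Nat.lt_succ_self i), a2 hi']
        rfl
  | mul f g ihf ihg =>
    intro i hi
    have hd : (Fm.mul f g).depth = max f.depth g.depth + 1 := rfl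
    rw [hd] at hi
    have hl := le_max_left f.depth g.depth
    have hr' := le_max_right f.depth g.depth
    have hi' : i < D + 1 := by omega
    have hi1 : i + 1 < D + 1 := by omega
    obtain ⟨p, hp1, hp2⟩ := ihf i (by omega)
    obtain ⟨q, hq1, hq2⟩ := ihg (i + 1) (by omega)
    refine ⟨p ++ (q ++ [.mul ⟨i, hi'⟩ ⟨i, hi'⟩ ⟨i + 1, hi1⟩]), ?_, fun w v => ?_⟩
    · rw [hd, List.length_append, List.length_append]
      exact RND_len hp1 hq1
    · rw [L1_runs_append, L1_runs_append]
      obtain ⟨a1, a2⟩ := hp2 w v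
      obtain ⟨b1, b2⟩ := hq2 w (runs w p v)
      refine ⟨fun r hr => ?_, fun _ => ?_⟩
      · have hne : r ≠ ⟨i, hi'⟩ := by
          intro h
          rw [h] at hr
          exact lt_irrefl _ hr
        rw [L1_runs_cons, L1_runs_nil]
        simp only [Instr.run]
        rw [Function.update_of_ne hne, b1 r (by omega), a1 r hr]
      · rw [L1_runs_cons, L1_runs_nil]
        simp only [Instr.run]
        rw [Function.update_self, b2 hi1, b1 ⟨i, hi'⟩ (Nat.lt_succ_self i), a2 hi']
        rfl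

theorem fm_prog {R X : Type} [CommSemiring R] (D : ℕ) (f : Fm R X) (hf : f.depth ≤ D) :
    ∃ p : List (Instr R X (Fin (D + 1))), p.length ≤ 2 ^ (D + 1) ∧
      ∀ w : X → R, exec w p 0 = f.eval w := by
  obtain ⟨p, h1, h2⟩ := RND_aux D f 0 (by omega)
  refine ⟨p, ?_, fun w => ?_⟩
  · have h3 : 2 ^ (f.depth + 1) ≤ 2 ^ (D + 1) := Nat.pow_le_pow_right (by norm_num) (by omega)
    omega
  · exact (h2 w (fun _ => 0)).2 (Nat.succ_pos D)

end Pool.Agent.H564R3.RN
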