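import Pool.Agent.H564R3.RN.Defs
import Pool.Agent.H564R3.TD.HistL

/-! Task B: histories from balanced weights. -/

set_option autoImplicit false
set_option linter.unusedSectionVars false

namespace Pool.Agent.H564R3.RN

open Finset
open Pool.Agent.H564R3.PW (Instr runs exec syms)
open Pool.Agent.H564R3.TS
open Pool.Agent.H564R3.TD

section Wt

variable {X : Type} [Fintype X] [DecidableEq X]

/-- weight of a monomial -/
def RNB_wt (κ : X → ℕ) (u : X → ℕ) : ℕ := ∑ x, u x * κ x

theorem RNB_wt_add (κ : X → ℕ) (u v : X → ℕ) :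
    RNB_wt κ (u + v) = RNB_wt κ u + RNB_wt κ v := by
  unfold RNB_wt
  rw [← sum_add_distrib]
  apply sum_congr rfl
  intro x _
  rw [Pi.add_apply, add_mul]

theorem RNB_wt_ind (κ : X → ℕ) (Y : Finset X) : RNB_wt κ (ind Y) = ∑ x ∈ Y, κ x := by
  unfold RNB_wt ind
  simp

/-- the properties of `≤` and `≥` that are used -/
structure RNB_Rel (rel : ℕ → ℕ → Prop) : Prop where
  anti : ∀ a b, rel a b → rel b a → a = b
  canc : ∀ a b c, rel (c + a) (c + b) → rel a b

theorem RNB_W {ρ : Type} [Fintype ρ] [DecidableEq ρ] {rel : ℕ → ℕ → Prop} (hrel : RNB_Rel rel)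
    {κ : X → ℕ} {C : ℕ} {T : Set (X → ℕ)} (hT : ∀ u ∈ T, rel C (RNB_wt κ u)) {A : Finset X}
    (hC : ∑ x ∈ A, κ x = C) {s : ρ → Set (X → ℕ)} {z : ρ → Finset X} (h : Config T A s z) {i : ρ}
    (hi : (z i).Nonempty) {w : X → ℕ} (hw : w ∈ s i) :
    rel (RNB_wt κ (ind (z i))) (RNB_wt κ w) := by
  have h1 := hT _ (Pool.Agent.H564R3.SV.X_ctx h hi hw)
  have h2 : RNB_wt κ (ind (A \ z i)) + RNB_wt κ (ind (z i)) = C := by
    rw [← RNB_wt_add, ← A_ind_union sdiff_disjoint, sdiff_union_of_subset (h.sub i), RNB_wt_ind, hC]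
  rw [RNB_wt_add, ← h2] at h1
  exact hrel.canc _ _ _ h1

end Wt

/-- One backward step. -/
theorem RNB_step {R X E ρ : Type} [Zero R] [Fintype X] [DecidableEq X] [Fintype E]
    [DecidableEq E] [Fintype ρ] [DecidableEq ρ] (I : Instr R X ρ) {sup : X → Finset E} {r : ℕ}
    (hr : 1 ≤ r) {rel : ℕ → ℕ → Prop} (hrel : RNB_Rel rel) {κ : X → ℕ} {C : ℕ}
    {T : Set (X → ℕ)} (hT : ∀ u ∈ T, rel C (RNB_wt κ u)) {A : Finset X}
    (hA : Exact sup r univ A) (hC : ∑ x ∈ A, κ x = C)
    (hgen : ∀ Y ⊆ A, ∀ Z ⊆ A, ∑ x ∈ Y, κ x = ∑ x ∈ Z, κ x → Y.biUnion sup = Z.biUnion sup)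
    {s : ρ → Set (X → ℕ)} {z : ρ → Finset X} (h : Config T A (I.sym s) z) :
    ∃ z' : ρ → Finset X, Config T A s z' ∧ (∀ i, ∃ j, z' i ⊆ z j) ∧
      ∀ i, (∃ j, z i = z' j) ∨ (∃ j l, z i = z' j ∪ z' l) ∨ z i ⊆ TDA_ld I := by
  -- nonempty supports
  have hne0 : ∀ x ∈ A, ∃ e, e ∈ sup x := by
    intro x hx
    have h1 : (sup x).Nonempty := by
      rw [← card_pos, hA.card x hx]
      omega
    exact h1
  -- disjoint parts of `A` have different weights
  have hdw : ∀ Y ⊆ A, ∀ Z ⊆ A, Y.Nonempty → Disjoint Y Z →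
      rel (RNB_wt κ (ind Y)) (RNB_wt κ (ind Z)) →
      rel (RNB_wt κ (ind Z)) (RNB_wt κ (ind Y)) → False := by
    intro Y hY Z hZ hne hd h1 h2
    have h3 := hrel.anti _ _ h1 h2
    rw [RNB_wt_ind, RNB_wt_ind] at h3
    have h4 := hgen Y hY Z hZ h3
    obtain ⟨y, hy⟩ := hne
    obtain ⟨e, he⟩ := hne0 y (hY hy)
    have h5 : e ∈ Z.biUnion sup := by
      rw [← h4]
      exact mem_biUnion.2 ⟨y, hy, he⟩
    obtain ⟨x, hx, hex⟩ := mem_biUnion.1 h5
    have h6 := A_eq hA (hZ hx) (hY hy) hex he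
    subst h6
    exact disjoint_left.1 hd hy hx
  have hW : ∀ i, (z i).Nonempty → ∀ w ∈ I.sym s i, rel (RNB_wt κ (ind (z i))) (RNB_wt κ w) :=
    fun i hi w hw => RNB_W hrel hT hC h hi hw
  -- destination register inactive
  have key : ∀ i0 : ρ, (∀ i, i ≠ i0 → I.sym s i = s i) → z i0 = ∅ →
      ∃ z' : ρ → Finset X, Config T A s z' ∧ (∀ i, ∃ j, z' i ⊆ z j) ∧
      ∀ i, (∃ j, z i = z' j) ∨ (∃ j l, z i = z' j ∪ z' l) ∨ z i ⊆ TDA_ld I := by
    intro i0 hs h0
    have hne : ∀ i, (z i).Nonempty → i ≠ i0 := by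
      rintro i hi rfl
      rw [h0] at hi; exact absurd hi (by simp)
    refine ⟨z, ⟨h.sub, ?_, h.disj, ?_⟩, fun i => ⟨i, subset_rfl⟩, fun i => Or.inl ⟨i, rfl⟩⟩
    · intro i hi
      rw [← hs i (hne i hi)]
      exact h.mem i hi
    · intro u hu
      apply h.ctx
      intro i hi
      rw [hs i (hne i hi)]
      exact hu i hi
  -- two sources cannot both be active
  have contra : ∀ i0 j : ρ, (z i0).Nonempty → j ≠ i0 → (z j).Nonempty →
      ind (z j) ∈ I.sym s i0 → ind (z i0) ∈ I.sym s j → False := by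
    intro i0 j h0 hj hzj hm hm'
    exact hdw _ (h.sub i0) _ (h.sub j) h0 (h.disj i0 j (Ne.symm hj)) (hW i0 h0 _ hm)
      (hW j hzj _ hm')
  cases I with
  | load i0 x =>
    have hs : ∀ i, i ≠ i0 → (Instr.load (R := R) i0 x).sym s i = s i := fun i hi => by
      simp [Instr.sym, Function.update_of_ne hi]
    rcases (z i0).eq_empty_or_nonempty with h0 | h0
    · exact key i0 hs h0
    have hm : ind (z i0) = Pi.single x 1 := by
      have h1 := h.mem i0 h0
      simpa [Instr.sym] using h1
    obtain ⟨z', h1, h2, h3, _⟩ := TDA_back h i0 hs h0 ∅ (fun _ => ∅) (z i0)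
      (by simp) (by simp) (by simp) (by simp) (by simp) (by simp)
      (fun u _ => by rw [sum_empty, add_zero]; exact h.mem i0 h0)
    refine ⟨z', h1, h2, fun i => ?_⟩
    by_cases hi : i = i0
    · right; right
      rw [hi]
      intro e he
      show e ∈ ({x} : Finset X)
      rw [mem_singleton]
      by_contra hne
      have h5 : ind (z i0) e = 1 := A_ind_self he
      rw [hm, Pi.single_apply, if_neg hne] at h5
      exact absurd h5 (by norm_num)
    · rcases h3 i hi with h5 | h5
      · exact Or.inl h5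
      · exact Or.inr (Or.inr (by rw [h5]; exact empty_subset _))
  | const i0 c =>
    have hs : ∀ i, i ≠ i0 → (Instr.const (X := X) i0 c).sym s i = s i := fun i hi => by
      simp [Instr.sym, Function.update_of_ne hi]
    rcases (z i0).eq_empty_or_nonempty with h0 | h0
    · exact key i0 hs h0
    exfalso
    have hm : ind (z i0) = 0 := by
      have h1 := h.mem i0 h0
      simp only [Instr.sym, Function.update_self, Set.mem_ofPred_eq] at h1
      exact h1.1
    obtain ⟨e, he⟩ := h0
    have h5 : ind (z i0) e = 1 := A_ind_self he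
    rw [hm] at h5
    exact absurd h5 (by simp)
  | add i0 j l =>
    have hs : ∀ i, i ≠ i0 → (Instr.add (R := R) (X := X) i0 j l).sym s i = s i :=
      fun i hi => by simp [Instr.sym, Function.update_of_ne hi]
    have hs0 : (Instr.add (R := R) (X := X) i0 j l).sym s i0 = s j ∪ s l := by
      simp [Instr.sym]
    rcases (z i0).eq_empty_or_nonempty with h0 | h0
    · exact key i0 hs h0
    have hm := h.mem i0 h0
    rw [hs0] at hm
    have hc : ∀ q : ρ, s q ⊆ s j ∪ s l → ind (z i0) ∈ s q → q = i0 ∨ z q = ∅ := by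
      intro q hq hq'
      by_contra hcon
      push Not at hcon
      have hzq : (z q).Nonempty := hcon.2
      refine contra i0 q h0 hcon.1 hzq ?_ ?_
      · rw [hs0]
        apply hq
        rw [← hs q hcon.1]
        exact h.mem q hzq
      · rw [hs q hcon.1]
        exact hq'
    rcases hm with hm | hm
    · exact TDA_one (TDA_ld _) h i0 hs h0 j hm (hc j Set.subset_union_left hm)
        (fun u hu => by rw [hs0]; exact Or.inl hu)
    · exact TDA_one (TDA_ld _) h i0 hs h0 l hm (hc l Set.subset_union_right hm)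
        (fun u hu => by rw [hs0]; exact Or.inr hu)
  | mul i0 j l =>
    have hs : ∀ i, i ≠ i0 → (Instr.mul (R := R) (X := X) i0 j l).sym s i = s i :=
      fun i hi => by simp [Instr.sym, Function.update_of_ne hi]
    have hs0 : (Instr.mul (R := R) (X := X) i0 j l).sym s i0 =
        {u | ∃ a ∈ s j, ∃ b ∈ s l, u = a + b} := by
      simp [Instr.sym]
    rcases (z i0).eq_empty_or_nonempty with h0 | h0
    · exact key i0 hs h0
    have hm := h.mem i0 h0
    rw [hs0] at hm
    obtain ⟨a, ha, b, hb, hab⟩ := hm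
    obtain ⟨Z1, Z2, hZ, hd, rfl, rfl⟩ := A_split hab
    have hact : ∀ q : ρ, q ≠ i0 → (z q).Nonempty → ind (z q) ∈ s q := by
      intro q hq hzq
      rw [← hs q hq]
      exact h.mem q hzq
    rcases Z1.eq_empty_or_nonempty with hZ1 | hZ1
    · -- the first factor is constant
      subst hZ1
      rw [empty_union] at hZ
      rw [A_ind_empty] at ha
      refine TDA_one (TDA_ld _) h i0 hs h0 l (by rw [hZ]; exact hb) ?_ ?_
      · by_contra hcon
        push Not at hcon
        have hzq : (z l).Nonempty := hcon.2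
        refine contra i0 l h0 hcon.1 hzq ?_ ?_
        · rw [hs0]
          exact ⟨0, ha, _, hact l hcon.1 hzq, by rw [zero_add]⟩
        · rw [hs l hcon.1, hZ]
          exact hb
      · intro u hu
        rw [hs0]
        exact ⟨0, ha, u, hu, by rw [zero_add]⟩
    rcases Z2.eq_empty_or_nonempty with hZ2 | hZ2
    · subst hZ2
      rw [union_empty] at hZ
      rw [A_ind_empty] at hb
      refine TDA_one (TDA_ld _) h i0 hs h0 j (by rw [hZ]; exact ha) ?_ ?_
      · by_contra hcon
        push Not at hcon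
        have hzq : (z j).Nonempty := hcon.2
        refine contra i0 j h0 hcon.1 hzq ?_ ?_
        · rw [hs0]
          exact ⟨_, hact j hcon.1 hzq, 0, hb, by rw [add_zero]⟩
        · rw [hs j hcon.1, hZ]
          exact ha
      · intro u hu
        rw [hs0]
        exact ⟨u, hu, 0, hb, by rw [add_zero]⟩
    have hZ1s : Z1 ⊆ z i0 := by rw [hZ]; exact subset_union_left
    have hZ2s : Z2 ⊆ z i0 := by rw [hZ]; exact subset_union_right
    have hwz : RNB_wt κ (ind (z i0)) = RNB_wt κ (ind Z1) + RNB_wt κ (ind Z2) := by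
      rw [hZ, A_ind_union hd, RNB_wt_add]
    -- a product which contains `Z2`
    have hw1 : ∀ u ∈ s j, rel (RNB_wt κ (ind Z1)) (RNB_wt κ u) := by
      intro u hu
      have h1 := hW i0 h0 (u + ind Z2) (by rw [hs0]; exact ⟨u, hu, _, hb, rfl⟩)
      rw [hwz, RNB_wt_add, add_comm (RNB_wt κ (ind Z1)), add_comm (RNB_wt κ u)] at h1
      exact hrel.canc _ _ _ h1
    have hw2 : ∀ u ∈ s l, rel (RNB_wt κ (ind Z2)) (RNB_wt κ u) := by
      intro u hu
      have h1 := hW i0 h0 (ind Z1 + u) (by rw [hs0]; exact ⟨_, ha, u, hu, rfl⟩)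
      rw [hwz, RNB_wt_add] at h1
      exact hrel.canc _ _ _ h1
    have hjl : j ≠ l := by
      rintro rfl
      exact hdw Z1 (hZ1s.trans (h.sub i0)) Z2 (hZ2s.trans (h.sub i0)) hZ1 hd
        (hw1 _ hb) (hw2 _ ha)
    have hj : j = i0 ∨ z j = ∅ := by
      by_contra hcon
      push Not at hcon
      have hzq : (z j).Nonempty := hcon.2
      refine hdw Z1 (hZ1s.trans (h.sub i0)) (z j) (h.sub j) hZ1
        (Disjoint.mono_left hZ1s (h.disj i0 j (Ne.symm hcon.1))) (hw1 _ (hact j hcon.1 hzq)) ?_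
      exact hW j hzq _ (by rw [hs j hcon.1]; exact ha)
    have hl : l = i0 ∨ z l = ∅ := by
      by_contra hcon
      push Not at hcon
      have hzq : (z l).Nonempty := hcon.2
      refine hdw Z2 (hZ2s.trans (h.sub i0)) (z l) (h.sub l) hZ2
        (Disjoint.mono_left hZ2s (h.disj i0 l (Ne.symm hcon.1))) (hw2 _ (hact l hcon.1 hzq)) ?_
      exact hW l hzq _ (by rw [hs l hcon.1]; exact hb)
    set ZZ : ρ → Finset X := fun q => if q = j then Z1 else Z2 with hZZ
    have zj : ZZ j = Z1 := by rw [hZZ]; simp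
    have zl : ZZ l = Z2 := by rw [hZZ]; simp only; rw [if_neg (Ne.symm hjl)]
    obtain ⟨z', h1, h2, h3, h4⟩ := TDA_back h i0 hs h0 {j, l} ZZ ∅
      (by
        intro q hq
        rw [mem_insert, mem_singleton] at hq
        rcases hq with rfl | rfl
        · rw [zj]; exact hZ1
        · rw [zl]; exact hZ2)
      (by
        intro q hq
        rw [mem_insert, mem_singleton] at hq
        rcases hq with rfl | rfl
        · rw [zj]; exact ha
        · rw [zl]; exact hb)
      (by
        intro q hq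
        rw [mem_insert, mem_singleton] at hq
        rcases hq with rfl | rfl
        · exact hj
        · exact hl)
      (by
        intro q hq q' hq' hqq
        rw [mem_insert, mem_singleton] at hq hq'
        rcases hq with rfl | rfl <;> rcases hq' with rfl | rfl
        · exact absurd rfl hqq
        · rw [zj, zl]; exact hd
        · rw [zj, zl]; exact hd.symm
        · exact absurd rfl hqq)
      (fun _ _ => disjoint_empty_right _)
      (by rw [biUnion_insert, singleton_biUnion, zj, zl, empty_union]; exact hZ)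
      (fun u hu => by
        rw [A_ind_empty, zero_add, sum_pair hjl, hs0]
        exact ⟨u j, hu j (by simp), u l, hu l (by simp), rfl⟩)
    refine ⟨z', h1, h2, fun i => ?_⟩
    by_cases hi : i = i0
    · right; left
      refine ⟨j, l, ?_⟩
      rw [h4 j (by simp), h4 l (by simp), zj, zl, hi]; exact hZ
    · rcases h3 i hi with h5 | h5
      · exact Or.inl h5
      · exact Or.inr (Or.inr (by rw [h5]; exact empty_subset _))

/-- existence of the backward configurations -/
theorem RNB_exists {R X ρ : Type} [Zero R] [Fintype X] [DecidableEq X] [Fintype ρ]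
    [DecidableEq ρ] {E : Type} [Fintype E] [DecidableEq E] {sup : X → Finset E} {r : ℕ}
    (hr : 1 ≤ r) (p : List (Instr R X ρ)) (o : ρ) {rel : ℕ → ℕ → Prop} (hrel : RNB_Rel rel)
    {κ : X → ℕ} {C : ℕ} (hT : ∀ u ∈ syms p o, rel C (RNB_wt κ u)) (A : Finset X)
    (hA : Exact sup r univ A) (hC : ∑ x ∈ A, κ x = C)
    (hgen : ∀ Y ⊆ A, ∀ Z ⊆ A, ∑ x ∈ Y, κ x = ∑ x ∈ Z, κ x → Y.biUnion sup = Z.biUnion sup)
    (hmem : ind A ∈ syms p o) :
    ∃ z : ℕ → ρ → Finset X,
      (∀ t ≤ p.length, Config (syms p o) A (D_st p t) (z t)) ∧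
      (∀ (t : ℕ) (ht : t < p.length), ∀ i, (∃ j, z (t + 1) i = z t j) ∨
        (∃ j l, z (t + 1) i = z t j ∪ z t l) ∨ z (t + 1) i ⊆ TDA_ld p[t]) ∧
      z p.length o = A := by
  classical
  have hfin : Config (syms p o) A (D_st p p.length)
      (Function.update (fun _ => (∅ : Finset X)) o A) := by
    rw [D_st_len]
    exact D_fin (syms p) o rfl A hmem
  have key : ∀ d ≤ p.length, ∃ z : ℕ → ρ → Finset X,
      (∀ t ≤ p.length, p.length - d ≤ t → Config (syms p o) A (D_st p t) (z t)) ∧
      (∀ (t : ℕ) (ht : t < p.length), p.length - d ≤ t →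
        ∀ i, (∃ j, z (t + 1) i = z t j) ∨ (∃ j l, z (t + 1) i = z t j ∪ z t l) ∨
          z (t + 1) i ⊆ TDA_ld p[t]) ∧
      z p.length o = A := by
    intro d
    induction d with
    | zero =>
      intro _
      refine ⟨fun _ => Function.update (fun _ => ∅) o A, ?_, ?_, ?_⟩
      · intro t ht ht'
        have : t = p.length := by omega
        subst this
        exact hfin
      · intro t ht ht'
        omega
      · simp
    | succ d ih =>
      intro hd
      obtain ⟨z, hz1, hz2, hz3⟩ := ih (by omega)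
      have hlt : p.length - (d + 1) < p.length := by omega
      have hs : p.length - (d + 1) + 1 = p.length - d := by omega
      have hc := hz1 (p.length - d) (by omega) le_rfl
      rw [← hs, D_st_succ p hlt] at hc
      obtain ⟨z', h1, -, h3⟩ := RNB_step _ hr hrel hT hA hC hgen hc
      refine ⟨Function.update z (p.length - (d + 1)) z', ?_, ?_, ?_⟩
      · intro t ht ht'
        by_cases htt : t = p.length - (d + 1)
        · subst htt
          rw [Function.update_self]
          exact h1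
        · rw [Function.update_of_ne htt]
          exact hz1 t ht (by omega)
      · intro t ht ht'
        by_cases htt : t = p.length - (d + 1)
        · subst htt
          rw [Function.update_self, Function.update_of_ne (by omega)]
          exact h3
        · rw [Function.update_of_ne htt, Function.update_of_ne (by omega)]
          exact hz2 t ht (by omega)
      · rw [Function.update_of_ne (by omega)]
        exact hz3
  obtain ⟨z, h1, h2, h3⟩ := key p.length le_rfl
  exact ⟨z, fun t ht => h1 t ht (by omega), fun t ht => h2 t ht (by omega), h3⟩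

theorem hist_bal {R X E ρ : Type} [Zero R] [Fintype X] [DecidableEq X] [Fintype E] [DecidableEq E]
    [Fintype ρ] [DecidableEq ρ] {sup : X → Finset E} {r : ℕ} (hr : 1 ≤ r)
    (p : List (Instr R X ρ)) (o : ρ) (F : Finset (Finset X))
    (hF : ∀ A ∈ F, Exact sup r univ A) (hmem : ∀ A ∈ F, ind A ∈ syms p o)
    (κ : X → ℕ) (C : ℕ) (hC : ∀ A ∈ F, ∑ x ∈ A, κ x = C)
    (hbal : (∀ u ∈ syms p o, C ≤ ∑ x, u x * κ x) ∨ ∀ u ∈ syms p o, ∑ x, u x * κ x ≤ C)
    (hgen : ∀ A ∈ F, ∀ B ∈ F, ∀ Y ⊆ A, ∀ Z ⊆ B, ∑ x ∈ Y, κ x = ∑ x ∈ Z, κ x →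
      Y.biUnion sup = Z.biUnion sup)
    (N : ℕ) (hN : p.length ≤ N) :
    ∃ (z : Finset X → ℕ → ρ → Finset X) (L : ℕ → Finset X), (∀ t, (L t).card ≤ 1) ∧
      (∀ A ∈ F, z A N o = A ∧ (∀ i, z A 0 i = ∅) ∧ (∀ t ≤ N, ∀ i, z A t i ⊆ A) ∧
        ∀ t < N, ∀ i, (∃ j, z A (t + 1) i = z A t j) ∨
          (∃ j l, z A (t + 1) i = z A t j ∪ z A t l) ∨ z A (t + 1) i ⊆ L t) ∧
      ∀ A ∈ F, ∀ B ∈ F, ∀ t ≤ N, ∀ i, (z A t i).Nonempty → (z B t i).Nonempty →
        ∑ x ∈ z A t i, κ x = ∑ x ∈ z B t i, κ x := by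
  classical
  obtain ⟨rel, hrel, hT⟩ : ∃ rel : ℕ → ℕ → Prop, RNB_Rel rel ∧
      ∀ u ∈ syms p o, rel C (RNB_wt κ u) := by
    rcases hbal with hb | hb
    · exact ⟨fun a b => a ≤ b, ⟨fun a b h1 h2 => le_antisymm h1 h2, fun a b c h => by omega⟩, hb⟩
    · exact ⟨fun a b => b ≤ a, ⟨fun a b h1 h2 => le_antisymm h2 h1, fun a b c h => by omega⟩, hb⟩
  have hex : ∀ A : Finset X, ∃ z : ℕ → ρ → Finset X, A ∈ F →
      (∀ t ≤ p.length, Config (syms p o) A (D_st p t) (z t)) ∧
      (∀ (t : ℕ) (ht : t < p.length), ∀ i, (∃ j, z (t + 1) i = z t j) ∨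
        (∃ j l, z (t + 1) i = z t j ∪ z t l) ∨ z (t + 1) i ⊆ TDA_ld p[t]) ∧
      z p.length o = A := by
    intro A
    by_cases hA : A ∈ F
    · obtain ⟨z, hz⟩ := RNB_exists hr p o hrel hT A (hF A hA) (hC A hA) (hgen A hA A hA)
        (hmem A hA)
      exact ⟨z, fun _ => hz⟩
    · exact ⟨fun _ _ => ∅, fun h => absurd h hA⟩
  choose z hz using hex
  refine ⟨fun A t => z A (min t p.length),
    fun t => if ht : t < p.length then TDA_ld p[t] else ∅, ?_, ?_, ?_⟩
  · intro t
    by_cases ht : t < p.length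
    · simp only [dif_pos ht]
      exact TDA_ld_card _
    · simp only [dif_neg ht]
      simp
  · intro A hA
    obtain ⟨h1, h2, h3⟩ := hz A hA
    refine ⟨?_, ?_, ?_, ?_⟩
    · have e1 : min N p.length = p.length := by omega
      simp only [e1]
      exact h3
    · intro i
      simp only [Nat.zero_min]
      rw [← not_nonempty_iff_eq_empty]
      intro hi
      have := (h1 0 (Nat.zero_le _)).mem i hi
      rw [D_st_zero] at this
      exact this
    · exact fun t _ i => (h1 _ (Nat.min_le_right _ _)).sub i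
    · intro t _ i
      by_cases ht : t < p.length
      · have e1 : min t p.length = t := by omega
        have e2 : min (t + 1) p.length = t + 1 := by omega
        simp only [e1, e2, dif_pos ht]
        exact h2 t ht i
      · have e1 : min t p.length = p.length := by omega
        have e2 : min (t + 1) p.length = p.length := by omega
        simp only [e1, e2]
        exact Or.inl ⟨i, rfl⟩
  · intro A hA B hB t _ i hi hi'
    have hcA := (hz A hA).1 _ (Nat.min_le_right t p.length)
    have hcB := (hz B hB).1 _ (Nat.min_le_right t p.length)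
    have h1 := RNB_W hrel hT (hC A hA) hcA hi (hcB.mem i hi')
    have h2 := RNB_W hrel hT (hC B hB) hcB hi' (hcA.mem i hi)
    have h3 := hrel.anti _ _ h1 h2
    rwa [RNB_wt_ind, RNB_wt_ind] at h3

end Pool.Agent.H564R3.RN
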