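import Pool.Agent.H564R3.RN.HistB
import Pool.Agent.H564R3.TS.Count

/-! Histories from balanced weights, with disjoint registers, and the general time-space
trade-off for randomised programs. -/

set_option autoImplicit false

namespace Pool.Agent.H564R3.RN

open Finset
open Pool.Agent.H564R3.PW (Instr runs exec syms)
open Pool.Agent.H564R3.TS
open Pool.Agent.H564R3.TD

theorem P_exists {R X ρ : Type} [Zero R] [Fintype X] [DecidableEq X] [Fintype ρ]
    [DecidableEq ρ] {E : Type} [Fintype E] [DecidableEq E] {sup : X → Finset E} {r : ℕ}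
    (hr : 1 ≤ r) (p : List (Instr R X ρ)) (o : ρ) {rel : ℕ → ℕ → Prop} (hrel : RNB_Rel rel)
    {κ : X → ℕ} {C : ℕ} (hT : ∀ u ∈ syms p o, rel C (RNB_wt κ u)) (A : Finset X)
    (hA : Exact sup r univ A) (hC : ∑ x ∈ A, κ x = C)
    (hgen : ∀ Y ⊆ A, ∀ Z ⊆ A, ∑ x ∈ Y, κ x = ∑ x ∈ Z, κ x → Y.biUnion sup = Z.biUnion sup)
    (hmem : ind A ∈ syms p o) :
    ∃ z : ℕ → ρ → Finset X,
      (∀ t ≤ p.length, Config (syms p o) A (D_st p t) (z t)) ∧
      (∀ t < p.length, (∀ i, ∃ j, z t i ⊆ z (t + 1) j) ∧ ∀ i, (∃ j, z (t + 1) i = z t j) ∨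
        (∃ j l, z (t + 1) i = z t j ∪ z t l) ∨ (z (t + 1) i).card ≤ 1) ∧
      z p.length o = A := by
  classical
  have hfin : Config (syms p o) A (D_st p p.length)
      (Function.update (fun _ => (∅ : Finset X)) o A) := by
    rw [D_st_len]
    exact D_fin (syms p) o rfl A hmem
  have key : ∀ d ≤ p.length, ∃ z : ℕ → ρ → Finset X,
      (∀ t ≤ p.length, p.length - d ≤ t → Config (syms p o) A (D_st p t) (z t)) ∧
      (∀ t < p.length, p.length - d ≤ t → (∀ i, ∃ j, z t i ⊆ z (t + 1) j) ∧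
        ∀ i, (∃ j, z (t + 1) i = z t j) ∨ (∃ j l, z (t + 1) i = z t j ∪ z t l) ∨
          (z (t + 1) i).card ≤ 1) ∧
      z p.length o = A := by
    intro d
    induction d with
    | zero =>
      intro _
      refine ⟨fun _ => Function.update (fun _ => ∅) o A, ?_, ?_, ?_⟩
      · intro t ht ht'
        have : t = p.length := by omega
        subst this
        exact hfin
      · intro t ht ht'
        omega
      · simp
    | succ d ih =>
      intro hd
      obtain ⟨z, hz1, hz2, hz3⟩ := ih (by omega)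
      have hlt : p.length - (d + 1) < p.length := by omega
      have hs : p.length - (d + 1) + 1 = p.length - d := by omega
      have hc := hz1 (p.length - d) (by omega) le_rfl
      rw [← hs, D_st_succ p hlt] at hc
      obtain ⟨z', h1, h2, h3⟩ := RNB_step _ hr hrel hT hA hC hgen hc
      refine ⟨Function.update z (p.length - (d + 1)) z', ?_, ?_, ?_⟩
      · intro t ht ht'
        by_cases htt : t = p.length - (d + 1)
        · subst htt
          rw [Function.update_self]
          exact h1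
        · rw [Function.update_of_ne htt]
          exact hz1 t ht (by omega)
      · intro t ht ht'
        by_cases htt : t = p.length - (d + 1)
        · subst htt
          rw [Function.update_self, Function.update_of_ne (by omega)]
          refine ⟨h2, fun i => ?_⟩
          rcases h3 i with h4 | h4 | h4
          · exact Or.inl h4
          · exact Or.inr (Or.inl h4)
          · exact Or.inr (Or.inr ((card_le_card h4).trans (TDA_ld_card _)))
        · rw [Function.update_of_ne htt, Function.update_of_ne (by omega)]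
          exact hz2 t ht (by omega)
      · rw [Function.update_of_ne (by omega)]
        exact hz3
  obtain ⟨z, h1, h2, h3⟩ := key p.length le_rfl
  exact ⟨z, fun t ht => h1 t ht (by omega), fun t ht => h2 t ht (by omega), h3⟩

theorem hist_balP {R X E ρ : Type} [Zero R] [Fintype X] [DecidableEq X] [Fintype E]
    [DecidableEq E] [Fintype ρ] [DecidableEq ρ] {sup : X → Finset E} {r : ℕ} (hr : 1 ≤ r)
    (p : List (Instr R X ρ)) (o : ρ) (F : Finset (Finset X))
    (hF : ∀ A ∈ F, Exact sup r univ A) (hmem : ∀ A ∈ F, ind A ∈ syms p o)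
    (κ : X → ℕ) (C : ℕ) (hC : ∀ A ∈ F, ∑ x ∈ A, κ x = C)
    (hbal : (∀ u ∈ syms p o, C ≤ ∑ x, u x * κ x) ∨ ∀ u ∈ syms p o, ∑ x, u x * κ x ≤ C)
    (hgen : ∀ A ∈ F, ∀ B ∈ F, ∀ Y ⊆ A, ∀ Z ⊆ B, ∑ x ∈ Y, κ x = ∑ x ∈ Z, κ x →
      Y.biUnion sup = Z.biUnion sup)
    (N : ℕ) (hN : p.length ≤ N) :
    ∃ z : Finset X → ℕ → ρ → Finset X, (∀ A ∈ F, Hist N A (z A) ∧ z A N o = A) ∧
      ∀ A ∈ F, ∀ B ∈ F, ∀ t ≤ N, ∀ i, (z A t i).Nonempty → (z B t i).Nonempty →
        (z A t i).biUnion sup = (z B t i).biUnion sup := by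
  classical
  obtain ⟨rel, hrel, hT⟩ : ∃ rel : ℕ → ℕ → Prop, RNB_Rel rel ∧
      ∀ u ∈ syms p o, rel C (RNB_wt κ u) := by
    rcases hbal with hb | hb
    · exact ⟨fun a b => a ≤ b, ⟨fun a b h1 h2 => le_antisymm h1 h2, fun a b c h => by omega⟩, hb⟩
    · exact ⟨fun a b => b ≤ a, ⟨fun a b h1 h2 => le_antisymm h2 h1, fun a b c h => by omega⟩, hb⟩
  have hex : ∀ A : Finset X, ∃ z : ℕ → ρ → Finset X, A ∈ F →
      (∀ t ≤ p.length, Config (syms p o) A (D_st p t) (z t)) ∧
      (∀ t < p.length, (∀ i, ∃ j, z t i ⊆ z (t + 1) j) ∧ ∀ i, (∃ j, z (t + 1) i = z t j) ∨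
        (∃ j l, z (t + 1) i = z t j ∪ z t l) ∨ (z (t + 1) i).card ≤ 1) ∧
      z p.length o = A := by
    intro A
    by_cases hA : A ∈ F
    · obtain ⟨z, hz⟩ := P_exists hr p o hrel hT A (hF A hA) (hC A hA) (hgen A hA A hA)
        (hmem A hA)
      exact ⟨z, fun _ => hz⟩
    · exact ⟨fun _ _ => ∅, fun h => absurd h hA⟩
  choose z hz using hex
  refine ⟨fun A t => z A (min t p.length), ?_, ?_⟩
  · intro A hA
    obtain ⟨h1, h2, h3⟩ := hz A hA
    refine ⟨⟨?_, ?_, ?_, ?_, ?_⟩, ?_⟩
    · intro i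
      simp only [Nat.zero_min]
      rw [← not_nonempty_iff_eq_empty]
      intro hi
      have := (h1 0 (Nat.zero_le _)).mem i hi
      rw [D_st_zero] at this
      exact this
    · exact fun t _ i => (h1 _ (Nat.min_le_right _ _)).sub i
    · exact fun t _ i j hij => (h1 _ (Nat.min_le_right _ _)).disj i j hij
    · intro t _ i
      by_cases ht : t < p.length
      · have e1 : min t p.length = t := by omega
        have e2 : min (t + 1) p.length = t + 1 := by omega
        simp only [e1, e2]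
        exact (h2 t ht).1 i
      · have e1 : min t p.length = p.length := by omega
        have e2 : min (t + 1) p.length = p.length := by omega
        simp only [e1, e2]
        exact ⟨i, subset_rfl⟩
    · intro t _ i
      by_cases ht : t < p.length
      · have e1 : min t p.length = t := by omega
        have e2 : min (t + 1) p.length = t + 1 := by omega
        simp only [e1, e2]
        exact (h2 t ht).2 i
      · have e1 : min t p.length = p.length := by omega
        have e2 : min (t + 1) p.length = p.length := by omega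
        simp only [e1, e2]
        exact Or.inl ⟨i, rfl⟩
    · have e1 : min N p.length = p.length := by omega
      simp only [e1]
      exact h3
  · intro A hA B hB t _ i hi hi'
    have hcA := (hz A hA).1 _ (Nat.min_le_right t p.length)
    have hcB := (hz B hB).1 _ (Nat.min_le_right t p.length)
    have h1 := RNB_W hrel hT (hC A hA) hcA hi (hcB.mem i hi')
    have h2 := RNB_W hrel hT (hC B hB) hcB hi' (hcA.mem i hi)
    have h3 := hrel.anti _ _ h1 h2
    rw [RNB_wt_ind, RNB_wt_ind] at h3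
    exact hgen A hA B hB _ (hcA.sub i) _ (hcB.sub i) h3

/-- The general time-space trade-off for balanced weights. -/
theorem main_bal {R X E ρ : Type} [Zero R] [Fintype X] [DecidableEq X] [Fintype E]
    [DecidableEq E] [Fintype ρ] [DecidableEq ρ] (sup : X → Finset E) (r : ℕ) (hr : 1 ≤ r)
    (F : Finset (Finset X)) (hF : ∀ A ∈ F, Exact sup r univ A)
    (p : List (Instr R X ρ)) (o : ρ) (hmem : ∀ A ∈ F, ind A ∈ syms p o)
    (κ : X → ℕ) (C : ℕ) (hC : ∀ A ∈ F, ∑ x ∈ A, κ x = C)
    (hbal : (∀ u ∈ syms p o, C ≤ ∑ x, u x * κ x) ∨ ∀ u ∈ syms p o, ∑ x, u x * κ x ≤ C)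
    (hgen : ∀ A ∈ F, ∀ B ∈ F, ∀ Y ⊆ A, ∀ Z ⊆ B, ∑ x ∈ Y, κ x = ∑ x ∈ Z, κ x →
      Y.biUnion sup = Z.biUnion sup)
    (c : ℕ → ℕ) (hc : ∀ (P : Finset E) (s : ℕ) (G : Finset (Finset X)), P.card = r * s →
      (∀ B ∈ G, Exact sup r P B) → G.card ≤ c s)
    (θ L : ℕ) (hθ : 1 ≤ θ) (hL : 1 ≤ L) (m : ℕ) (hm : Fintype.card E = r * m)
    (hcc : ∀ x s, 2 * x ≤ s → s ≤ m → c x * c (s - x) * θ ^ x ≤ L * c s)
    (w H : ℕ) (hw : 1 ≤ w) (hH : p.length ≤ 2 ^ H) :
    F.card * θ ^ m ≤
      2 ^ H * θ ^ (3 * w) * ((H + 1) * L * Fintype.card ρ) ^ (m / w) * c m := by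
  obtain ⟨z, hz, hu⟩ := hist_balP hr p o F hF hmem κ C hC hbal hgen (2 ^ H) hH
  exact count sup r hr F hF z H o hz hu c hc θ L hθ hL m hm hcc w hw

end Pool.Agent.H564R3.RN
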