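import Pool.Agent.H564R3.RN.Defs
import Pool.Agent.H564R3.RN.HistB
import Pool.Agent.H564R3.TD.Main

/-! The lower bound for programs which are balanced for generic weights. -/

set_option autoImplicit false

namespace Pool.Agent.H564R3.RN

open Finset
open Pool.Agent.H564R3.PW (Instr runs exec syms)
open Pool.Agent.H564R3.TS
open Pool.Agent.H564R3.TD
open Pool.Agent.H564R3.SV (pow_clog_le)

theorem RNC_image {n r m : ℕ} {sc : Fin r → Finset (Fin n)} {φ : Fin n → Fin m}
    {Y : Finset (CVar n r m)} (hY : Y ⊆ cset sc φ) : Y = (Y.biUnion cpos).image (cv sc φ) := by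
  ext x
  rw [mem_image]
  constructor
  · intro hx
    refine ⟨x.1, (TDD_mem_biUnion Y x.1).mpr ⟨x, hx, rfl⟩, ?_⟩
    exact ((TDD_mem_cset φ x).mp (hY hx)).symm
  · rintro ⟨e, he, rfl⟩
    obtain ⟨y, hy, rfl⟩ := (TDD_mem_biUnion Y e).mp he
    have := (TDD_mem_cset φ y).mp (hY hy)
    rw [← this]
    exact hy

theorem RNC_sum {n r m : ℕ} {sc : Fin r → Finset (Fin n)} {φ : Fin n → Fin m}
    {Y : Finset (CVar n r m)} (hY : Y ⊆ cset sc φ) (κ : CVar n r m → ℕ) :
    ∑ x ∈ Y, κ x = ∑ e ∈ Y.biUnion cpos, κ (cv sc φ e) := by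
  conv_lhs => rw [RNC_image hY]
  rw [sum_image (fun a _ b _ h => TDD_cv_inj φ h)]

theorem RNC_fibre {n m : ℕ} (M : Finset (Fin n)) (Φ : Finset (Fin n → Fin m)) :
    Φ.card ≤ m ^ (n - M.card) * (Φ.image (fun φ (v : M) => φ v)).card := by
  classical
  refine card_le_mul_card_image Φ _ (fun a _ => ?_)
  have h1 : (Φ.filter (fun φ => (fun (v : M) => φ v) = a)).card ≤
      (univ : Finset ({v : Fin n // v ∉ M} → Fin m)).card := by
    refine card_le_card_of_injOn (fun φ v => φ v) (fun _ _ => mem_coe.2 (mem_univ _)) ?_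
    intro φ hφ ψ hψ h
    rw [mem_coe, mem_filter] at hφ hψ
    funext v
    by_cases hv : v ∈ M
    · have h2 := hφ.2.trans hψ.2.symm
      exact congrFun h2 ⟨v, hv⟩
    · exact congrFun h ⟨v, hv⟩
  refine h1.trans (le_of_eq ?_)
  rw [card_univ, Fintype.card_fun, Fintype.card_fin, Fintype.card_subtype_compl,
    Fintype.card_fin, Fintype.card_coe]

theorem low_bal {R ρ : Type} [Zero R] [Fintype ρ] [DecidableEq ρ] {n r m : ℕ}
    (sc : Fin r → Finset (Fin n)) (hcov : ∀ v, ∃ e, v ∈ sc e) (hm : 1 ≤ m) (d : ℕ)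
    (hd : ¬ TDle sc d univ) (p : List (Instr R (CVar n r m) ρ)) (o : ρ)
    {κ : CVar n r m → ℕ} {C : ℕ} (hw : NWts sc κ C)
    (hbal : (∀ u ∈ syms p o, C ≤ ∑ x, u x * κ x) ∨ ∀ u ∈ syms p o, ∑ x, u x * κ x ≤ C)
    (Φ : Finset (Fin n → Fin m)) (g1 : ∀ φ ∈ Φ, ind (cset sc φ) ∈ syms p o)
    (hp : 1 ≤ p.length) :
    Φ.card * m ^ (d + 1) ≤
      m ^ n * (2 * p.length * ((Nat.clog 2 p.length + 1) * Fintype.card ρ) ^ (d + 1)) := by
  classical
  set H := Nat.clog 2 p.length with hH
  have hHT : 2 ^ H ≤ 2 * p.length := pow_clog_le _ hp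
  set F := Φ.image (cset (m := m) sc) with hF
  have hFe : ∀ A ∈ F, Exact cpos 1 univ A := by
    intro A hA
    rw [hF, mem_image] at hA
    obtain ⟨φ, _, rfl⟩ := hA
    exact net_exact sc φ
  have hFm : ∀ A ∈ F, ind A ∈ syms p o := by
    intro A hA
    rw [hF, mem_image] at hA
    obtain ⟨φ, hφ, rfl⟩ := hA
    exact g1 φ hφ
  have hFC : ∀ A ∈ F, ∑ x ∈ A, κ x = C := by
    intro A hA
    rw [hF, mem_image] at hA
    obtain ⟨φ, _, rfl⟩ := hA
    exact hw.tot φ
  have hgen : ∀ A ∈ F, ∀ B ∈ F, ∀ Y ⊆ A, ∀ Z ⊆ B, ∑ x ∈ Y, κ x = ∑ x ∈ Z, κ x →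
      Y.biUnion cpos = Z.biUnion cpos := by
    intro A hA B hB Y hY Z hZ h
    rw [hF, mem_image] at hA hB
    obtain ⟨φ, _, rfl⟩ := hA
    obtain ⟨ψ, _, rfl⟩ := hB
    rw [RNC_sum hY, RNC_sum hZ] at h
    exact (hw.gen φ ψ _ _ h).1
  obtain ⟨z, L, hL, hz, hex⟩ := hist_bal le_rfl p o F hFe hFm κ C hFC hbal hgen (2 ^ H)
    (Nat.le_pow_clog (by norm_num) _)
  have c0 : Fin m := ⟨0, hm⟩
  obtain ⟨M, hMs, hMc, hMd⟩ := TD_split sc d univ ∅ (by rw [card_empty, add_zero]; exact hd)
  have hmemF : ∀ φ ∈ Φ, cset sc φ ∈ F := fun φ hφ => mem_image_of_mem _ hφ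
  set lo : ℕ → Fin n → Fin m := fun t v =>
    if h : ∃ x, L t = {x} then ((Classical.choose h).2 v).getD c0 else c0 with hlo
  have hc := td_count (N := 2 ^ H) sc hcov Φ (fun φ => φ) lo
    (fun φ t i => (z (cset sc φ) t i).biUnion cpos)
    (fun φ hφ i => by
      show (z (cset sc φ) 0 i).biUnion cpos = ∅
      rw [(hz _ (hmemF φ hφ)).2.1 i, biUnion_empty])
    (by
      intro φ hφ t ht i
      rcases (hz _ (hmemF φ hφ)).2.2.2 t ht i with ⟨j, hj⟩ | ⟨j, l, hj⟩ | hj
      · exact Or.inl ⟨j, by rw [hj]⟩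
      · refine Or.inr (Or.inl ⟨j, l, ?_⟩)
        show (z (cset sc φ) (t + 1) i).biUnion cpos = _
        rw [hj]
        ext e
        simp only [mem_union, M_mem_pos]
        constructor
        · rintro ⟨x, hx | hx, he⟩
          · exact Or.inl ⟨x, hx, he⟩
          · exact Or.inr ⟨x, hx, he⟩
        · rintro (⟨x, hx, he⟩ | ⟨x, hx, he⟩)
          · exact ⟨x, Or.inl hx, he⟩
          · exact ⟨x, Or.inr hx, he⟩
      · refine Or.inr (Or.inr ?_)
        intro e he
        rw [M_mem_pos] at he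
        obtain ⟨x, hx, rfl⟩ := he
        have h1 : L t = {x} := by
          have h2 := hL t
          rw [card_le_one] at h2
          ext y
          rw [mem_singleton]
          constructor
          · intro hy; exact h2 y hy x (hj hx)
          · rintro rfl; exact hj hx
        have h3 : z (cset sc φ) (t + 1) i = {x} := by
          ext y
          rw [mem_singleton]
          constructor
          · intro hy
            have := hj hy
            rw [h1, mem_singleton] at this
            exact this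
          · rintro rfl; exact hx
        refine ⟨?_, ?_⟩
        · ext e'
          rw [M_mem_pos, h3, mem_singleton]
          constructor
          · rintro ⟨y, hy, rfl⟩
            rw [mem_singleton.1 hy]
          · rintro rfl
            exact ⟨x, mem_singleton_self x, rfl⟩
        · intro v hv
          have h4 := (hz _ (hmemF φ hφ)).2.2.1 (t + 1) (by omega) i hx
          rw [cset, mem_image] at h4
          obtain ⟨e', _, he'⟩ := h4
          have h5 : x.1 = e' := by rw [← he']; rfl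
          have hex1 : ∃ x, L t = {x} := ⟨x, h1⟩
          have h6 : Classical.choose hex1 = x := by
            have h7 := Classical.choose_spec hex1
            exact (singleton_injective (h1.symm.trans h7)).symm
          rw [hlo]
          simp only
          rw [dif_pos hex1, h6]
          rw [h5] at hv
          rw [← he']
          simp only [cv]
          rw [if_pos hv]
          rfl)
    (by
      intro φ hφ ψ hψ t ht i h1 h2
      have h1' : (z (cset sc φ) t i).Nonempty := by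
        obtain ⟨e, he⟩ := h1
        rw [M_mem_pos] at he
        obtain ⟨x, hx, _⟩ := he
        exact ⟨x, hx⟩
      have h2' : (z (cset sc ψ) t i).Nonempty := by
        obtain ⟨e, he⟩ := h2
        rw [M_mem_pos] at he
        obtain ⟨x, hx, _⟩ := he
        exact ⟨x, hx⟩
      have h3 := hex _ (hmemF φ hφ) _ (hmemF ψ hψ) t ht i h1' h2'
      rw [RNC_sum ((hz _ (hmemF φ hφ)).2.2.1 t ht i),
        RNC_sum ((hz _ (hmemF ψ hψ)).2.2.1 t ht i)] at h3
      exact hw.gen φ ψ _ _ h3)
    H le_rfl (by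
      intro φ hφ
      refine ⟨o, ?_⟩
      show (z (cset sc φ) (2 ^ H) o).biUnion cpos = univ
      rw [(hz _ (hmemF φ hφ)).1]
      rw [eq_univ_iff_forall]
      intro e
      obtain ⟨x, hx, he⟩ := (net_exact sc φ).cover e (mem_univ e)
      exact mem_biUnion.2 ⟨x, hx, he⟩) d M hMc hMd
  have hfib := RNC_fibre M Φ
  have hMn : M.card ≤ n := by
    have := card_le_univ M
    rwa [Fintype.card_fin] at this
  have hpow : m ^ (n - M.card) * m ^ M.card = m ^ n := by
    rw [← pow_add, Nat.sub_add_cancel hMn]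
  calc Φ.card * m ^ (d + 1)
      ≤ (m ^ (n - M.card) * (Φ.image (fun φ (v : M) => φ v)).card) * m ^ (d + 1) :=
        Nat.mul_le_mul_right _ hfib
    _ = m ^ (n - M.card) * ((Φ.image (fun φ (v : M) => φ v)).card * m ^ (d + 1)) := by ring
    _ ≤ m ^ (n - M.card) * (2 ^ H * ((H + 1) * Fintype.card ρ) ^ (d + 1) * m ^ M.card) :=
        Nat.mul_le_mul_left _ hc
    _ = (m ^ (n - M.card) * m ^ M.card) * (2 ^ H * ((H + 1) * Fintype.card ρ) ^ (d + 1)) := by
        ring
    _ = m ^ n * (2 ^ H * ((H + 1) * Fintype.card ρ) ^ (d + 1)) := by rw [hpow]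
    _ ≤ _ := Nat.mul_le_mul_left _ (Nat.mul_le_mul_right _ hHT)

end Pool.Agent.H564R3.RN
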