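import Pool.Agent.H564R3.RN.Defs
import Pool.Agent.H564R3.TD.Depth

/-!
The treedepth of a path.
-/

set_option autoImplicit false

namespace Pool.Agent.H564R3.RN

open Finset
open Pool.Agent.H564R3.PW (Instr runs exec syms)
open Pool.Agent.H564R3.TS
open Pool.Agent.H564R3.TD

/-- the nodes `a, ..., a + len - 1` -/
def RNE_iv (n a len : ℕ) : Finset (Fin (n + 1)) :=
  univ.filter fun v => a ≤ v.val ∧ v.val < a + len

theorem RNE_mem {n a len : ℕ} (v : Fin (n + 1)) :
    v ∈ RNE_iv n a len ↔ a ≤ v.val ∧ v.val < a + len := by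
  unfold RNE_iv
  rw [mem_filter]
  exact ⟨fun h => h.2, fun h => ⟨mem_univ _, h⟩⟩

theorem RNE_adj {n k : ℕ} (h1 : k < n + 1) (h2 : k + 1 < n + 1) :
    Adj (pathSc n) ⟨k, h1⟩ ⟨k + 1, h2⟩ ∧ Adj (pathSc n) ⟨k + 1, h2⟩ ⟨k, h1⟩ := by
  have e1 : (⟨k, h1⟩ : Fin (n + 1)) ∈ pathSc n ⟨k, by omega⟩ := by
    unfold pathSc
    rw [mem_insert]
    left
    rfl
  have e2 : (⟨k + 1, h2⟩ : Fin (n + 1)) ∈ pathSc n ⟨k, by omega⟩ := by
    unfold pathSc
    rw [mem_insert, mem_singleton]
    right
    rfl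
  exact ⟨⟨_, e1, e2⟩, ⟨_, e2, e1⟩⟩

theorem RNE_conn {n a len : ℕ} (hl : 1 ≤ len) (ha : a + len ≤ n + 1) :
    Conn (pathSc n) (RNE_iv n a len) := by
  refine ⟨⟨⟨a, by omega⟩, (RNE_mem _).2 ⟨le_rfl, by simp only; omega⟩⟩, ?_⟩
  rintro Y hY ⟨y, hy⟩ hne
  by_contra hcon
  push Not at hcon
  have hyM := (RNE_mem y).1 (hY hy)
  have hup : ∀ k : ℕ, y.val + k < a + len → ∀ hk : y.val + k < n + 1,
      (⟨y.val + k, hk⟩ : Fin (n + 1)) ∈ Y := by
    intro k
    induction k with
    | zero => intro _ _; exact hy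
    | succ k ih =>
      intro h1 h2
      have h3 := ih (by omega) (by omega)
      by_contra h4
      refine hcon _ h3 ⟨y.val + (k + 1), h2⟩ ?_ (RNE_adj (k := y.val + k) (by omega) h2).1
      rw [mem_sdiff, RNE_mem]
      exact ⟨⟨by simp only; omega, h1⟩, h4⟩
  have hdown : ∀ k : ℕ, a + k ≤ y.val → ∀ hk : y.val - k < n + 1,
      (⟨y.val - k, hk⟩ : Fin (n + 1)) ∈ Y := by
    intro k
    induction k with
    | zero => intro _ _; exact hy
    | succ k ih =>
      intro h1 h2
      have h3 := ih (by omega) (by omega)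
      by_contra h4
      refine hcon _ h3 ⟨y.val - (k + 1), h2⟩ ?_ ?_
      · rw [mem_sdiff, RNE_mem]
        exact ⟨⟨by simp only; omega, by simp only; omega⟩, h4⟩
      · have e : (⟨y.val - k, by omega⟩ : Fin (n + 1)) = ⟨y.val - (k + 1) + 1, by omega⟩ := by
          apply Fin.ext
          simp only
          omega
        rw [e]
        exact (RNE_adj (k := y.val - (k + 1)) (by omega) (by omega)).2
  apply hne
  refine Subset.antisymm hY fun z hz => ?_
  have hzM := (RNE_mem z).1 hz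
  rcases le_total y.val z.val with h | h
  · have h1 := hup (z.val - y.val) (by omega) (by omega)
    have e : (⟨y.val + (z.val - y.val), by omega⟩ : Fin (n + 1)) = z := by
      apply Fin.ext
      simp only
      omega
    rwa [e] at h1
  · have h1 := hdown (y.val - z.val) (by omega) (by omega)
    have e : (⟨y.val - (y.val - z.val), by omega⟩ : Fin (n + 1)) = z := by
      apply Fin.ext
      simp only
      omega
    rwa [e] at h1

theorem RNE_main (n h : ℕ) : ∀ a len : ℕ, 2 ^ h ≤ len → a + len ≤ n + 1 →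
    ¬ TDle (pathSc n) h (RNE_iv n a len) := by
  induction h with
  | zero =>
    intro a len hl ha hT
    have h1 : RNE_iv n a len = ∅ := hT
    have h2 : (⟨a, by omega⟩ : Fin (n + 1)) ∈ RNE_iv n a len :=
      (RNE_mem _).2 ⟨le_rfl, by simp only; omega⟩
    rw [h1] at h2
    exact absurd h2 (notMem_empty _)
  | succ h ih =>
    intro a len hl ha hT
    have hp : 0 < 2 ^ h := by positivity
    have hp2 : 2 ^ (h + 1) = 2 * 2 ^ h := by ring
    obtain ⟨v, hv, hT'⟩ := hT _ (Subset.refl _) (RNE_conn (by omega) ha)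
    have hvM := (RNE_mem v).1 hv
    by_cases hc : 2 ^ h ≤ v.val - a
    · refine ih a (v.val - a) hc (by omega) ?_
      refine TDle_mono _ _ _ _ hT' ?_
      intro z hz
      rw [RNE_mem] at hz
      rw [mem_erase, RNE_mem]
      refine ⟨fun e => ?_, by omega, by omega⟩
      rw [e] at hz
      omega
    · refine ih (v.val + 1) (a + len - v.val - 1) (by omega) (by omega) ?_
      refine TDle_mono _ _ _ _ hT' ?_
      intro z hz
      rw [RNE_mem] at hz
      rw [mem_erase, RNE_mem]
      refine ⟨fun e => ?_, by omega, by omega⟩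
      rw [e] at hz
      omega

theorem path_depth (h n : ℕ) (hn : 2 ^ h ≤ n) : ¬ TDle (pathSc n) h univ := by
  intro hT
  refine RNE_main n h 0 (n + 1) (by omega) (by omega) ?_
  exact TDle_mono _ _ _ _ hT (subset_univ _)

end Pool.Agent.H564R3.RN
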