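import Pool.Agent.H564R3.RN.Defs
import Pool.Agent.H564R3.SV.Upper

set_option autoImplicit false

namespace Pool.Agent.H564R3.RN

open Finset
open Pool.Agent.H564R3.PW (Instr runs exec syms)
open Pool.Agent.H564R3.TS
open Pool.Agent.H564R3.TD

/-- rename the variables of an instruction -/
def RNE_ren {R X Y ρ : Type} (g : X → Y) : Instr R X ρ → Instr R Y ρ
  | .load i x => .load i (g x)
  | .const i c => .const i c
  | .add i j l => .add i j l
  | .mul i j l => .mul i j l

theorem RNE_runs {R X Y ρ : Type} [CommSemiring R] [DecidableEq ρ] (g : X → Y) (w : Y → R)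
    (p : List (Instr R X ρ)) (v : ρ → R) :
    runs w (p.map (RNE_ren g)) v = runs (fun x => w (g x)) p v := by
  induction p generalizing v with
  | nil => rfl
  | cons I p ih =>
    show runs w (p.map (RNE_ren g)) ((RNE_ren g I).run w v) =
      runs (fun x => w (g x)) p (I.run (fun x => w (g x)) v)
    rw [ih]
    congr 1
    cases I <;> rfl

/-- the variable of the network for an edge of the layered graph -/
def RNE_var {n m : ℕ} (x : Fin n × Fin m × Fin m) : CVar (n + 1) n m :=
  (x.1, fun v => if v = x.1.castSucc then some x.2.1 else if v = x.1.succ then some x.2.2 else none)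

theorem RNE_pv {n m : ℕ} (φ : Fin (n + 1) → Fin m) (l : Fin n) :
    cv (pathSc n) φ l = RNE_var (SV.pv φ l) := by
  unfold cv RNE_var SV.pv
  refine Prod.ext rfl ?_
  funext v
  simp only [pathSc, mem_insert, mem_singleton]
  by_cases h1 : v = l.castSucc
  · subst h1
    simp
  · by_cases h2 : v = l.succ
    · subst h2
      simp [h1]
    · simp [h1, h2]

theorem path_prog {R : Type} [CommSemiring R] (h m : ℕ) :
    ∃ (ρ : Type) (_ : Fintype ρ) (_ : DecidableEq ρ)
      (p : List (Instr R (CVar (2 ^ h + 1) (2 ^ h) m) ρ)) (o : ρ),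
      Fintype.card ρ = (h + 2) * m + 3 ∧ p.length ≤ 10 * m ^ 2 * 2 ^ h ∧
      ∀ w : CVar (2 ^ h + 1) (2 ^ h) m → R, exec w p o = netSum (pathSc (2 ^ h)) w := by
  have key := SV.path_upper (R := R) h 1 m
  rw [one_mul] at key
  obtain ⟨ρ, i1, i2, p, o, h1, h2, h3⟩ := key
  refine ⟨ρ, i1, i2, p.map (RNE_ren RNE_var), o, h1, ?_, ?_⟩
  · rw [List.length_map]
    simpa using h2
  · intro w
    have e1 : exec w (p.map (RNE_ren RNE_var)) = exec (fun x => w (RNE_var x)) p :=
      RNE_runs _ _ _ _
    rw [e1, h3]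
    unfold netSum SV.pathSum
    refine sum_congr rfl (fun φ _ => prod_congr rfl (fun e _ => ?_))
    rw [RNE_pv]

end Pool.Agent.H564R3.RN
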