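import Pool.Agent.H564R3.RN.Low
import Pool.Agent.H564R3.RN.Formula
import Pool.Agent.H564R3.RN.Path
import Pool.Agent.H564R3.RN.PathProg
import Pool.Agent.H564R3.RW.RedMin
import Pool.Agent.H564R3.RW.RedNN

/-! Randomised and approximating pure programs for constraint networks: the main bounds. -/

set_option autoImplicit false

namespace Pool.Agent.H564R3.RN

open Finset
open Pool.Agent.H564R3.PW (Instr runs exec syms)
open Pool.Agent.H564R3.TS
open Pool.Agent.H564R3.TD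
open Pool.Agent.H564R3.RW (red_min red_nn)
open scoped NNReal

theorem M_fin {R ρ : Type} [Zero R] [Fintype ρ] [DecidableEq ρ] {n r m : ℕ}
    (sc : Fin r → Finset (Fin n)) (hcov : ∀ v, ∃ e, v ∈ sc e) (hm : 1 ≤ m) (d : ℕ)
    (hd : ¬ TDle sc d univ) (p : List (Instr R (CVar n r m) ρ)) (o : ρ)
    {κ : CVar n r m → ℕ} {C : ℕ} (hw : NWts sc κ C)
    (hbal : (∀ u ∈ syms p o, C ≤ ∑ x, u x * κ x) ∨ ∀ u ∈ syms p o, ∑ x, u x * κ x ≤ C)
    (Φ : Finset (Fin n → Fin m)) (hne : Φ.Nonempty)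
    (g1 : ∀ φ ∈ Φ, ind (cset sc φ) ∈ syms p o) (e : ℝ)
    (hΦ : (1 - 2 * e) * (m : ℝ) ^ n ≤ (Φ.card : ℝ)) (T : ℕ) (hT : p.length ≤ T) :
    (1 - 2 * e) * (m : ℝ) ^ (d + 1) ≤
      2 * (T : ℝ) * (((Nat.clog 2 T : ℝ) + 1) * (Fintype.card ρ : ℝ)) ^ (d + 1) := by
  have hp : 1 ≤ p.length := by
    rcases Nat.eq_zero_or_pos p.length with h0 | h0
    · exfalso
      obtain ⟨φ, hφ⟩ := hne
      have h1 := g1 φ hφ
      rw [List.length_eq_zero_iff.1 h0] at h1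
      exact h1
    · exact h0
  have h1 := low_bal sc hcov hm d hd p o hw hbal Φ g1 hp
  have h2 : m ^ n * (2 * p.length * ((Nat.clog 2 p.length + 1) * Fintype.card ρ) ^ (d + 1)) ≤
      m ^ n * (2 * T * ((Nat.clog 2 T + 1) * Fintype.card ρ) ^ (d + 1)) := by
    refine Nat.mul_le_mul_left _ (Nat.mul_le_mul (Nat.mul_le_mul_left _ hT) ?_)
    refine Nat.pow_le_pow_left (Nat.mul_le_mul_right _ (Nat.add_le_add_right ?_ _)) _
    exact Nat.clog_mono_right 2 hT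
  have h3 : (Φ.card : ℝ) * (m : ℝ) ^ (d + 1) ≤
      (m : ℝ) ^ n * (2 * (T : ℝ) * (((Nat.clog 2 T : ℝ) + 1) * (Fintype.card ρ : ℝ)) ^ (d + 1)) := by
    have := h1.trans h2
    exact_mod_cast this
  have hmn : (0 : ℝ) < (m : ℝ) ^ n := by
    have : (0 : ℝ) < (m : ℝ) := by exact_mod_cast hm
    positivity
  have h4 : (m : ℝ) ^ n * ((1 - 2 * e) * (m : ℝ) ^ (d + 1)) ≤
      (m : ℝ) ^ n * (2 * (T : ℝ) * (((Nat.clog 2 T : ℝ) + 1) * (Fintype.card ρ : ℝ)) ^ (d + 1)) := by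
    refine le_trans ?_ h3
    calc (m : ℝ) ^ n * ((1 - 2 * e) * (m : ℝ) ^ (d + 1))
        = ((1 - 2 * e) * (m : ℝ) ^ n) * (m : ℝ) ^ (d + 1) := by ring
      _ ≤ (Φ.card : ℝ) * (m : ℝ) ^ (d + 1) := mul_le_mul_of_nonneg_right hΦ (by positivity)
  exact le_of_mul_le_mul_left h4 hmn

/-- the time-space bound for randomised (min,+) programs -/
theorem net_min {n r m : ℕ} (sc : Fin r → Finset (Fin n)) (hcov : ∀ v, ∃ e, v ∈ sc e)
    (hm : 1 ≤ m) (d : ℕ) (hd : ¬ TDle sc d univ) {ρ : Type} [Fintype ρ] [DecidableEq ρ]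
    {Λ : Type} [Fintype Λ] (e : ℝ) (pr : Λ → ℝ)
    (p : Λ → List (Instr (Tropical (WithTop ℝ)) (CVar n r m) ρ)) (o : ρ)
    (h : RandomMin sc e pr p o) (T : ℕ) (hT : ∀ l, (p l).length ≤ T) :
    (1 - 2 * e) * (m : ℝ) ^ (d + 1) ≤
      2 * (T : ℝ) * (((Nat.clog 2 T : ℝ) + 1) * (Fintype.card ρ : ℝ)) ^ (d + 1) := by
  rcases le_or_gt (1 - 2 * e) 0 with he | he
  · refine (mul_nonpos_of_nonpos_of_nonneg he (by positivity)).trans (by positivity)
  · obtain ⟨l, κ, C, Φ, hw, hΦ, hne, hb, g1⟩ := red_min sc hm e he pr p o h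
    exact M_fin sc hcov hm d hd (p l) o hw (Or.inl hb) Φ hne g1 e hΦ T (hT l)

/-- the time-space bound for randomised approximating subtraction-free programs -/
theorem net_approx {n r m : ℕ} (sc : Fin r → Finset (Fin n)) (hcov : ∀ v, ∃ e, v ∈ sc e)
    (hm : 1 ≤ m) (d : ℕ) (hd : ¬ TDle sc d univ) {ρ : Type} [Fintype ρ] [DecidableEq ρ]
    {Λ : Type} [Fintype Λ] (e : ℝ) (r' : ℝ≥0) (pr : Λ → ℝ)
    (p : Λ → List (Instr ℝ≥0 (CVar n r m) ρ)) (o : ρ)
    (h : RandomApprox sc e r' pr p o) (T : ℕ) (hT : ∀ l, (p l).length ≤ T) :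
    (1 - 2 * e) * (m : ℝ) ^ (d + 1) ≤
      2 * (T : ℝ) * (((Nat.clog 2 T : ℝ) + 1) * (Fintype.card ρ : ℝ)) ^ (d + 1) := by
  rcases le_or_gt (1 - 2 * e) 0 with he | he
  · refine (mul_nonpos_of_nonpos_of_nonneg he (by positivity)).trans (by positivity)
  · obtain ⟨l, κ, C, Φ, hw, hΦ, hne, hb, g1⟩ := red_nn sc hm e he r' pr p o h
    exact M_fin sc hcov hm d hd (p l) o hw (Or.inr hb) Φ hne g1 e hΦ T (hT l)

open Classical in
/-- A finite probability distribution `pr` on formulas `f l` over the nonnegative reals which for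
all natural weights `w` have a value within the factor `r'` of `netSum sc w` with probability at
least `1 - e`. -/
noncomputable def RandomFormula {n r m : ℕ} (sc : Fin r → Finset (Fin n)) {Λ : Type} [Fintype Λ]
    (e : ℝ) (r' : ℝ≥0) (pr : Λ → ℝ) (f : Λ → Fm ℝ≥0 (CVar n r m)) : Prop :=
  (∀ l, 0 ≤ pr l) ∧ ∑ l, pr l = 1 ∧
    ∀ w : CVar n r m → ℕ, 1 - e ≤
      ∑ l, if netSum sc (fun x => ((w x : ℕ) : ℝ≥0)) ≤ r' * (f l).eval (fun x => ((w x : ℕ) : ℝ≥0)) ∧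
        (f l).eval (fun x => ((w x : ℕ) : ℝ≥0)) ≤ r' * netSum sc (fun x => ((w x : ℕ) : ℝ≥0))
      then pr l else 0

/-- the depth bound for randomised approximating subtraction-free formulas -/
theorem net_depth {n r m : ℕ} (sc : Fin r → Finset (Fin n)) (hcov : ∀ v, ∃ e, v ∈ sc e)
    (hm : 1 ≤ m) (d : ℕ) (hd : ¬ TDle sc d univ) {Λ : Type} [Fintype Λ] (e : ℝ) (r' : ℝ≥0)
    (pr : Λ → ℝ) (f : Λ → Fm ℝ≥0 (CVar n r m)) (h : RandomFormula sc e r' pr f) (D : ℕ)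
    (hD : ∀ l, (f l).depth ≤ D) :
    (1 - 2 * e) * (m : ℝ) ^ (d + 1) ≤
      2 ^ (D + 2) * (((D : ℝ) + 2) * ((D : ℝ) + 1)) ^ (d + 1) := by
  choose p hp hex using fun l => fm_prog D (f l) (hD l)
  have h1 : RandomApprox sc e r' pr p 0 := by
    refine ⟨h.1, h.2.1, fun w => ?_⟩
    have h3 := h.2.2 w
    unfold Approx
    simp only [hex]
    exact h3
  have h2 := net_approx sc hcov hm d hd e r' pr p 0 h1 (2 ^ (D + 1)) hp
  have h4 : Nat.clog 2 (2 ^ (D + 1)) = D + 1 := Nat.clog_pow 2 (D + 1) (by norm_num)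
  rw [h4, Fintype.card_fin] at h2
  push_cast at h2
  refine h2.trans (le_of_eq ?_)
  ring

/-- every node of a path lies in the scope of a constraint -/
theorem path_cov (N : ℕ) (hN : 1 ≤ N) (v : Fin (N + 1)) : ∃ e, v ∈ pathSc N e := by
  rcases Nat.eq_zero_or_pos v.val with h | h
  · refine ⟨⟨0, hN⟩, ?_⟩
    unfold pathSc
    rw [mem_insert]
    left
    ext
    simpa using h
  · refine ⟨⟨v.val - 1, by omega⟩, ?_⟩
    unfold pathSc
    rw [mem_insert, mem_singleton]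
    right
    ext
    simp only [Fin.val_succ]
    omega

end Pool.Agent.H564R3.RN
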