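import Pool.Agent.H564R3.RN.HistP
import Pool.Agent.H564R3.RN.Formula
import Pool.Agent.H564R3.AP.Main
import Pool.Agent.H564R3.TS.Num
import Pool.Agent.H564R3.TS.Perm

/-! Randomised approximation of the permanent by pure programs with little space. -/

set_option autoImplicit false

namespace Pool.Agent.H564R3.RN

open Finset
open Pool.Agent.H564R3.PW (Instr runs exec syms)
open Pool.Agent.H564R3.TS
open Pool.Agent.H564R3.RD (weights pick M_sum)
open Pool.Agent.H564R3.AP (tests_nn M_perm)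
open scoped NNReal

theorem perm_ts {n : ℕ} {ρ : Type} [Fintype ρ] [DecidableEq ρ] {Λ : Type} [Fintype Λ] (e : ℝ)
    (r : ℝ≥0) (q : Λ → ℝ) (p : Λ → List (Instr ℝ≥0 (Fin n × Fin n) ρ)) (o : ρ)
    (h : AP.RandomApprox e r q p o) (T : ℕ) (hT : ∀ l, (p l).length ≤ T) :
    (1 - 2 * e) * (4 : ℝ) ^ n ≤ 2 * (T : ℝ) *
      (2 : ℝ) ^ (5 * Real.sqrt ((n : ℝ) *
        Real.logb 2 (2 * ((n : ℝ) + 1) ^ 2 * (Fintype.card ρ : ℝ))) + 7) := by
  classical
  obtain ⟨hq, hsum, hcor⟩ := h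
  have he0 : 0 ≤ e := by
    have h1 := hcor (fun _ => 0)
    have h2 : (∑ l, if AP.Approx r (p l) o (fun _ => 0) then q l else 0) ≤ ∑ l, q l := by
      refine sum_le_sum fun l _ => ?_
      split_ifs
      · exact le_rfl
      · exact hq l
    have h3 : 1 - e ≤ 1 := by
      refine le_trans ?_ (h2.trans hsum.le)
      convert h1
    linarith
  obtain ⟨K, hK1, hK2⟩ := weights (psup (n := n)) 2 (by norm_num)
  choose t₀ ht₀ using fun l => tests_nn (p l) o (r * (n.factorial : ℝ≥0) + r)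
  obtain ⟨t, ht⟩ : ∃ t : ℕ, ∀ l, t₀ l ≤ t := ⟨univ.sup t₀, fun l => le_sup (mem_univ l)⟩
  set κ : Fin n × Fin n → ℕ := fun x => ∑ e ∈ psup x, K e with hκ
  set W : ℕ := ∑ e, K e with hW
  set F : Finset (Finset (Fin n × Fin n)) := univ.image pgraph with hF
  have hFcard : F.card = n.factorial := perm_card n
  have hprod : ∀ σ : Equiv.Perm (Fin n), ∏ x ∈ pgraph σ, ((t ^ κ x : ℕ) : ℝ≥0) =
      (t : ℝ≥0) ^ W := by
    intro σ
    rw [← Nat.cast_prod, prod_pow_eq_pow_sum, hκ, M_sum (perm_exact σ), Nat.cast_pow]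
  have h1 : ∀ l, AP.Approx r (p l) o (fun x => t ^ κ x) →
      ∀ u ∈ syms (p l) o, ∑ x, u x * κ x ≤ W := by
    rintro l ⟨_, hv⟩
    refine (ht₀ l t (ht l) κ W).1 (hv.trans ?_)
    rw [M_perm (fun x => t ^ κ x), sum_congr rfl (fun σ _ => hprod σ), sum_const, card_univ,
      Fintype.card_perm, Fintype.card_fin, nsmul_eq_mul, ← mul_assoc]
    exact mul_le_mul_left le_self_add _
  have h2 : ∀ l, ∀ A ∈ F, AP.Approx r (p l) o (fun x => t ^ κ x) →
      AP.Approx r (p l) o (fun x => if x ∈ A then t ^ κ x else 0) → ind A ∈ syms (p l) o := by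
    intro l A hA hc1 hc2
    rw [hF, mem_image] at hA
    obtain ⟨σ, _, rfl⟩ := hA
    have hge : (t : ℝ≥0) ^ W ≤
        (Matrix.of fun i j => (((fun x => if x ∈ pgraph σ then t ^ κ x else 0) (i, j) : ℕ) :
          ℝ≥0)).permanent := by
      rw [M_perm (fun x => if x ∈ pgraph σ then t ^ κ x else 0)]
      refine le_trans (le_of_eq ?_) (single_le_sum (f := fun τ : Equiv.Perm (Fin n) =>
        ∏ x ∈ pgraph τ, (((if x ∈ pgraph σ then t ^ κ x else 0 : ℕ)) : ℝ≥0))
        (fun _ _ => bot_le) (mem_univ σ))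
      rw [← hprod σ]
      refine prod_congr rfl fun x hx => ?_
      rw [if_pos hx]
    obtain ⟨u, hu, hoff, hle⟩ := (ht₀ l t (ht l) κ W).2 (pgraph σ) (by
      refine (hge.trans hc2.1).trans ?_
      exact mul_le_mul_left le_add_self _)
    have hge := h1 l hc1 u hu
    have h6 := hK2 (pgraph σ) (perm_exact σ) u hoff (le_antisymm hge hle)
    rw [← h6]
    exact hu
  obtain ⟨l, hl⟩ := pick q hq hsum e F (fun l => AP.Approx r (p l) o (fun x => t ^ κ x))
    (fun l A => AP.Approx r (p l) o (fun x => if x ∈ A then t ^ κ x else 0)) (by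
      have := hcor (fun x => t ^ κ x)
      convert this using 3) (by
      intro A _
      have := hcor (fun x => if x ∈ A then t ^ κ x else 0)
      convert this using 3)
  rcases le_or_gt (1 - 2 * e) 0 with he | he
  · refine (mul_nonpos_of_nonpos_of_nonneg he (by positivity)).trans (by positivity)
  · set F' := F.filter (fun A => AP.Approx r (p l) o (fun x => t ^ κ x) ∧
      AP.Approx r (p l) o (fun x => if x ∈ A then t ^ κ x else 0)) with hF'
    have hfac : (0 : ℝ) < (n.factorial : ℝ) := by exact_mod_cast Nat.factorial_pos n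
    have hcard : (1 - 2 * e) * (n.factorial : ℝ) ≤ (F'.card : ℝ) := by
      rw [← hFcard]; exact hl
    have hne : 0 < F'.card := by
      have : (0 : ℝ) < (F'.card : ℝ) := lt_of_lt_of_le (mul_pos he hfac) hcard
      exact_mod_cast this
    obtain ⟨A₀, hA₀⟩ := card_pos.1 hne
    have hG := (mem_filter.1 hA₀).2.1
    have hmem : ∀ A ∈ F', ind A ∈ syms (p l) o := by
      intro A hA
      rw [hF', mem_filter] at hA
      exact h2 l A hA.1 hG hA.2.2
    have hF'e : ∀ A ∈ F', Exact psup 2 univ A := by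
      intro A hA
      have hA' := (mem_filter.1 hA).1
      rw [hF, mem_image] at hA'
      obtain ⟨σ, _, rfl⟩ := hA'
      exact perm_exact σ
    have hC : ∀ A ∈ F', ∑ x ∈ A, κ x = W := fun A hA => M_sum (hF'e A hA) K
    have hbi : ∀ A ∈ F', ∀ Y ⊆ A, ∑ x ∈ Y, κ x = ∑ e ∈ Y.biUnion psup, K e := by
      intro A hA Y hY
      rw [hκ, sum_biUnion]
      intro x hx y hy hxy
      exact (hF'e A hA).disj x (hY hx) y (hY hy) hxy
    have hgen : ∀ A ∈ F', ∀ B ∈ F', ∀ Y ⊆ A, ∀ Z ⊆ B, ∑ x ∈ Y, κ x = ∑ x ∈ Z, κ x →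
        Y.biUnion psup = Z.biUnion psup := by
      intro A hA B hB Y hY Z hZ h3
      rw [hbi A hA Y hY, hbi B hB Z hZ] at h3
      exact hK1 _ _ h3
    have hT1 : 1 ≤ T := by
      refine le_trans ?_ (hT l)
      rcases Nat.eq_zero_or_pos (p l).length with h0 | h0
      · exfalso
        have h3 := hmem A₀ hA₀
        rw [List.length_eq_zero_iff.1 h0] at h3
        exact h3
      · exact h0
    set K₀ : ℕ := ⌈1 / (1 - 2 * e)⌉₊ with hK₀
    have hK₀1 : 1 / (1 - 2 * e) ≤ (K₀ : ℝ) := Nat.le_ceil _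
    have hK₀2 : (K₀ : ℝ) * (1 - 2 * e) ≤ 2 := by
      have h3 : (K₀ : ℝ) < 1 / (1 - 2 * e) + 1 :=
        Nat.ceil_lt_add_one (by positivity)
      have h4 : (K₀ : ℝ) * (1 - 2 * e) ≤ (1 / (1 - 2 * e) + 1) * (1 - 2 * e) :=
        mul_le_mul_of_nonneg_right h3.le he.le
      have h5 : (1 / (1 - 2 * e) + 1) * (1 - 2 * e) = 1 + (1 - 2 * e) := by
        field_simp
      rw [h5] at h4
      linarith
    have h4 := num_perm n K₀ (Fintype.card ρ) T (Fintype.card_pos_iff.2 ⟨o⟩) hT1 (by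
      intro w H hw hH
      have h5 := main_bal psup 2 (by norm_num) F' hF'e (p l) o hmem κ W hC (Or.inr (h1 l hG)) hgen
        Nat.factorial
        (fun P s G hP hG => perm_count P s G hP hG) 4 (n + 1) (by norm_num) (by omega) n
        (by simp [Fintype.card_sum]; ring) (fun x s hx hs => fact_ineq n x s hx hs)
        w H hw ((hT l).trans hH)
      set B : ℕ := 2 ^ H * 4 ^ (3 * w) * ((H + 1) * (n + 1) * Fintype.card ρ) ^ (n / w) with hB
      have h6 : (F'.card : ℝ) * (4 : ℝ) ^ n ≤ (B : ℝ) * (n.factorial : ℝ) := by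
        exact_mod_cast h5
      have h7 : ((1 - 2 * e) * (4 : ℝ) ^ n) * (n.factorial : ℝ) ≤
          (B : ℝ) * (n.factorial : ℝ) := by
        calc ((1 - 2 * e) * (4 : ℝ) ^ n) * (n.factorial : ℝ)
            = ((1 - 2 * e) * (n.factorial : ℝ)) * (4 : ℝ) ^ n := by ring
          _ ≤ (F'.card : ℝ) * (4 : ℝ) ^ n := mul_le_mul_of_nonneg_right hcard (by positivity)
          _ ≤ _ := h6
      have h8 : (1 - 2 * e) * (4 : ℝ) ^ n ≤ (B : ℝ) := le_of_mul_le_mul_right h7 hfac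
      have h9 : (4 : ℝ) ^ n ≤ (K₀ : ℝ) * (B : ℝ) := by
        have h10 : (4 : ℝ) ^ n ≤ (B : ℝ) * (1 / (1 - 2 * e)) := by
          rw [mul_one_div, le_div_iff₀ he, mul_comm ((4 : ℝ) ^ n)]
          exact h8
        refine h10.trans ?_
        rw [mul_comm (K₀ : ℝ)]
        exact mul_le_mul_of_nonneg_left hK₀1 (Nat.cast_nonneg _)
      exact_mod_cast h9)
    set Q : ℝ := (2 : ℝ) ^ (5 * Real.sqrt ((n : ℝ) *
        Real.logb 2 (2 * ((n : ℝ) + 1) ^ 2 * (Fintype.card ρ : ℝ))) + 7) with hQ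
    have hQ0 : 0 ≤ Q := by positivity
    calc (1 - 2 * e) * (4 : ℝ) ^ n ≤ (1 - 2 * e) * ((K₀ : ℝ) * (T : ℝ) * Q) :=
          mul_le_mul_of_nonneg_left h4 he.le
      _ = ((K₀ : ℝ) * (1 - 2 * e)) * ((T : ℝ) * Q) := by ring
      _ ≤ 2 * ((T : ℝ) * Q) := mul_le_mul_of_nonneg_right hK₀2 (by positivity)
      _ = 2 * (T : ℝ) * Q := by ring

open Classical in
/-- A finite probability distribution `q` on formulas `f l` over the nonnegative reals whose value,
for every matrix of natural numbers, is within the factor `r` of the permanent with probability at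
least `1 - e`. -/
noncomputable def RandomPermFormula {n : ℕ} {Λ : Type} [Fintype Λ] (e : ℝ) (r : ℝ≥0) (q : Λ → ℝ)
    (f : Λ → Fm ℝ≥0 (Fin n × Fin n)) : Prop :=
  (∀ l, 0 ≤ q l) ∧ ∑ l, q l = 1 ∧
    ∀ w : Fin n × Fin n → ℕ, 1 - e ≤
      ∑ l, if (Matrix.of fun i j => ((w (i, j) : ℕ) : ℝ≥0)).permanent ≤
          r * (f l).eval (fun x => (w x : ℝ≥0)) ∧
        (f l).eval (fun x => (w x : ℝ≥0)) ≤
          r * (Matrix.of fun i j => ((w (i, j) : ℕ) : ℝ≥0)).permanent
      then q l else 0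

theorem perm_depth {n : ℕ} {Λ : Type} [Fintype Λ] (e : ℝ) (r : ℝ≥0) (q : Λ → ℝ)
    (f : Λ → Fm ℝ≥0 (Fin n × Fin n)) (h : RandomPermFormula e r q f) (D : ℕ)
    (hD : ∀ l, (f l).depth ≤ D) :
    (1 - 2 * e) * (4 : ℝ) ^ n ≤ (2 : ℝ) ^ (D + 2) *
      (2 : ℝ) ^ (5 * Real.sqrt ((n : ℝ) *
        Real.logb 2 (2 * ((n : ℝ) + 1) ^ 2 * ((D : ℝ) + 1))) + 7) := by
  choose p hp hex using fun l => fm_prog D (f l) (hD l)
  have h1 : AP.RandomApprox e r q p 0 := by
    refine ⟨h.1, h.2.1, fun w => ?_⟩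
    have h3 := h.2.2 w
    unfold AP.Approx
    simp only [hex]
    exact h3
  have h2 := perm_ts e r q p 0 h1 (2 ^ (D + 1)) hp
  rw [Fintype.card_fin] at h2
  push_cast at h2
  refine h2.trans (le_of_eq ?_)
  rw [pow_succ (2 : ℝ) (D + 1)]
  ring

end Pool.Agent.H564R3.RN
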