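import Pool.Agent.H564R3.RN.Defs
import Pool.Agent.H564R3.SV.Upper
import Pool.Agent.H564R3.RN.PathProg

/-!
Formulas of small depth for paths.
-/

set_option autoImplicit false

namespace Pool.Agent.H564R3.RN

open Finset
open Pool.Agent.H564R3.PW (Instr runs exec syms)
open Pool.Agent.H564R3.TS
open Pool.Agent.H564R3.TD

/-- balanced sum of a list of formulas -/
theorem RNF_list {R X : Type} [CommSemiring R] (D j : ℕ) : ∀ l : List (Fm R X), l ≠ [] →
    l.length ≤ 2 ^ j → (∀ f ∈ l, f.depth ≤ D) →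
    ∃ f : Fm R X, f.depth ≤ D + j ∧ ∀ w : X → R, f.eval w = (l.map (Fm.eval w)).sum := by
  induction j with
  | zero =>
    intro l hl hlen hD
    cases l with
    | nil => exact absurd rfl hl
    | cons f t =>
      cases t with
      | nil => exact ⟨f, by simpa using hD f (by simp), fun w => by simp⟩
      | cons g t => simp at hlen
  | succ j ih =>
    intro l hl hlen hD
    rcases Nat.lt_or_ge (2 ^ j) l.length with h | h
    · have e1 : (l.take (2 ^ j)).length = 2 ^ j := by rw [List.length_take]; omega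
      have e2 : (l.drop (2 ^ j)).length = l.length - 2 ^ j := List.length_drop
      have h0 : 0 < 2 ^ j := by positivity
      have h1 : l.take (2 ^ j) ≠ [] := by
        intro h2
        rw [h2] at e1
        simp at e1
        omega
      have h2 : l.drop (2 ^ j) ≠ [] := by
        intro h3
        rw [h3] at e2
        simp at e2
        omega
      obtain ⟨f, f1, f2⟩ := ih _ h1 (by omega) (fun f hf => hD f (List.mem_of_mem_take hf))
      obtain ⟨g, g1, g2⟩ := ih _ h2 (by rw [e2]; rw [pow_succ] at hlen; omega)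
        (fun f hf => hD f (List.mem_of_mem_drop hf))
      refine ⟨.add f g, ?_, fun w => ?_⟩
      · show max f.depth g.depth + 1 ≤ _
        omega
      · show f.eval w + g.eval w = _
        rw [f2, g2, ← List.sum_append, ← List.map_append, List.take_append_drop]
    · obtain ⟨f, f1, f2⟩ := ih l hl h hD
      exact ⟨f, by omega, f2⟩

/-- balanced sum of a family of formulas -/
theorem RNF_sum {R X : Type} [CommSemiring R] {m : ℕ} (hm : 1 ≤ m) (D : ℕ) (g : Fin m → Fm R X)
    (hD : ∀ i, (g i).depth ≤ D) :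
    ∃ f : Fm R X, f.depth ≤ D + Nat.clog 2 m ∧ ∀ w : X → R, f.eval w = ∑ i, (g i).eval w := by
  obtain ⟨f, f1, f2⟩ := RNF_list D (Nat.clog 2 m) (List.ofFn g) (by
      intro h
      have := congrArg List.length h
      rw [List.length_ofFn] at this
      simp at this
      omega) (by
      rw [List.length_ofFn]
      exact Nat.le_pow_clog (by norm_num) m) (by
      intro f hf
      rw [List.mem_ofFn] at hf
      obtain ⟨i, rfl⟩ := hf
      exact hD i)
  refine ⟨f, f1, fun w => ?_⟩
  rw [f2, List.map_ofFn, List.sum_ofFn]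
  rfl

/-- divide and conquer -/
theorem RNF_seg {R X : Type} [CommSemiring R] {m : ℕ} (hm : 1 ≤ m)
    (x : ℕ → Fin m → Fin m → Fm R X) (hx : ∀ c α β, (x c α β).depth = 0) (h : ℕ) :
    ∀ (c : ℕ) (α β : Fin m), ∃ f : Fm R X, f.depth ≤ h * (Nat.clog 2 m + 1) ∧
      ∀ w : X → R, f.eval w = PW.L2_P (fun c α β => (x c α β).eval w) (2 ^ h) c α β := by
  induction h with
  | zero =>
    intro c α β
    refine ⟨x c α β, by rw [hx]; omega, fun w => ?_⟩
    rw [pow_zero, PW.L2_P_one]
  | succ h ih =>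
    intro c α β
    choose F F1 F2 using ih
    obtain ⟨f, f1, f2⟩ := RNF_sum hm (h * (Nat.clog 2 m + 1) + 1)
      (fun γ => Fm.mul (F c α γ) (F (c + 2 ^ h) γ β)) (fun γ => by
        show max (F c α γ).depth (F (c + 2 ^ h) γ β).depth + 1 ≤ _
        have := F1 c α γ
        have := F1 (c + 2 ^ h) γ β
        omega)
    refine ⟨f, ?_, fun w => ?_⟩
    · refine f1.trans (le_of_eq ?_)
      ring
    · rw [f2, show (2 : ℕ) ^ (h + 1) = 2 ^ h + 2 ^ h by ring, PW.L2_P_add]
      refine Finset.sum_congr rfl fun γ _ => ?_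
      show (F c α γ).eval w * (F (c + 2 ^ h) γ β).eval w = _
      rw [F2, F2]

theorem path_shallow {R : Type} [CommSemiring R] (h m : ℕ) (hm : 1 ≤ m) :
    ∃ f : Fm R (CVar (2 ^ h + 1) (2 ^ h) m),
      f.depth ≤ h * (Nat.clog 2 m + 1) + 2 * Nat.clog 2 m ∧
      ∀ w : CVar (2 ^ h + 1) (2 ^ h) m → R, f.eval w = netSum (pathSc (2 ^ h)) w := by
  let x : ℕ → Fin m → Fin m → Fm R (CVar (2 ^ h + 1) (2 ^ h) m) := fun c α β =>
    if hc : c < 2 ^ h then Fm.var (RNE_var (⟨c, hc⟩, α, β)) else Fm.const 1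
  have hx : ∀ c α β, (x c α β).depth = 0 := by
    intro c α β
    show (if hc : c < 2 ^ h then _ else _ : Fm R _).depth = 0
    split_ifs <;> rfl
  choose F F1 F2 using RNF_seg hm x hx h 0
  choose G G1 G2 using fun α => RNF_sum hm (h * (Nat.clog 2 m + 1)) (fun β => F α β)
    (fun β => F1 α β)
  obtain ⟨f, f1, f2⟩ := RNF_sum hm _ G G1
  refine ⟨f, f1.trans (le_of_eq (by ring)), fun w => ?_⟩
  have h1 := PW.L2_path (R := R) (Q := Fin m) (fun c α β => (x c α β).eval w) (2 ^ h) 0
    (fun _ => 1)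
  rw [f2]
  have h2 : ∑ α, (G α).eval w = ∑ α : Fin m, ∑ β : Fin m,
      1 * PW.L2_P (fun c α β => (x c α β).eval w) (2 ^ h) 0 α β := by
    refine Finset.sum_congr rfl fun α _ => ?_
    rw [G2]
    refine Finset.sum_congr rfl fun β _ => ?_
    rw [F2, one_mul]
  rw [h2, ← h1]
  unfold netSum
  refine Finset.sum_congr rfl fun φ _ => ?_
  rw [one_mul]
  unfold PW.L2_W
  refine Finset.prod_congr rfl fun i _ => ?_
  have hi : 0 + (i : ℕ) < 2 ^ h := by rw [zero_add]; exact i.2
  have e1 : x (0 + (i : ℕ)) (φ i.castSucc) (φ i.succ) =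
      Fm.var (RNE_var (⟨0 + (i : ℕ), hi⟩, φ i.castSucc, φ i.succ)) := dif_pos hi
  show (x (0 + (i : ℕ)) (φ i.castSucc) (φ i.succ)).eval w = _
  rw [e1, RNE_pv]
  show w _ = w _
  congr 2
  unfold SV.pv
  simp

end Pool.Agent.H564R3.RN
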