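import Pool.Agent.H564R3.RN.Defs

/-! Stubs (statements only): every theorem goes to its own file, see `h564p_tasks`. -/

set_option autoImplicit false

namespace Pool.Agent.H564R3.RN

open Finset
open Pool.Agent.H564R3.PW (Instr runs exec syms)
open Pool.Agent.H564R3.TS
open Pool.Agent.H564R3.TD

/-! ### A (Wts.lean) -/

theorem net_wts {n r m : ℕ} (sc : Fin r → Finset (Fin n)) :
    ∃ (κ : CVar n r m → ℕ) (C : ℕ), NWts sc κ C := by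
  sorry

/-! ### B (HistB.lean) -/

theorem hist_bal {R X E ρ : Type} [Zero R] [Fintype X] [DecidableEq X] [Fintype E] [DecidableEq E]
    [Fintype ρ] [DecidableEq ρ] {sup : X → Finset E} {r : ℕ} (hr : 1 ≤ r)
    (p : List (Instr R X ρ)) (o : ρ) (F : Finset (Finset X))
    (hF : ∀ A ∈ F, Exact sup r univ A) (hmem : ∀ A ∈ F, ind A ∈ syms p o)
    (κ : X → ℕ) (C : ℕ) (hC : ∀ A ∈ F, ∑ x ∈ A, κ x = C)
    (hbal : (∀ u ∈ syms p o, C ≤ ∑ x, u x * κ x) ∨ ∀ u ∈ syms p o, ∑ x, u x * κ x ≤ C)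
    (hgen : ∀ A ∈ F, ∀ B ∈ F, ∀ Y ⊆ A, ∀ Z ⊆ B, ∑ x ∈ Y, κ x = ∑ x ∈ Z, κ x →
      Y.biUnion sup = Z.biUnion sup)
    (N : ℕ) (hN : p.length ≤ N) :
    ∃ (z : Finset X → ℕ → ρ → Finset X) (L : ℕ → Finset X), (∀ t, (L t).card ≤ 1) ∧
      (∀ A ∈ F, z A N o = A ∧ (∀ i, z A 0 i = ∅) ∧ (∀ t ≤ N, ∀ i, z A t i ⊆ A) ∧
        ∀ t < N, ∀ i, (∃ j, z A (t + 1) i = z A t j) ∨
          (∃ j l, z A (t + 1) i = z A t j ∪ z A t l) ∨ z A (t + 1) i ⊆ L t) ∧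
      ∀ A ∈ F, ∀ B ∈ F, ∀ t ≤ N, ∀ i, (z A t i).Nonempty → (z B t i).Nonempty →
        ∑ x ∈ z A t i, κ x = ∑ x ∈ z B t i, κ x := by
  sorry

/-! ### C (Low.lean; uses B, TD/Count.lean, TD/Nets.lean; adapt TD/Main.lean) -/

theorem low_bal {R ρ : Type} [Zero R] [Fintype ρ] [DecidableEq ρ] {n r m : ℕ}
    (sc : Fin r → Finset (Fin n)) (hcov : ∀ v, ∃ e, v ∈ sc e) (hm : 1 ≤ m) (d : ℕ)
    (hd : ¬ TDle sc d univ) (p : List (Instr R (CVar n r m) ρ)) (o : ρ)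
    {κ : CVar n r m → ℕ} {C : ℕ} (hw : NWts sc κ C)
    (hbal : (∀ u ∈ syms p o, C ≤ ∑ x, u x * κ x) ∨ ∀ u ∈ syms p o, ∑ x, u x * κ x ≤ C)
    (Φ : Finset (Fin n → Fin m)) (g1 : ∀ φ ∈ Φ, ind (cset sc φ) ∈ syms p o)
    (hp : 1 ≤ p.length) :
    Φ.card * m ^ (d + 1) ≤
      m ^ n * (2 * p.length * ((Nat.clog 2 p.length + 1) * Fintype.card ρ) ^ (d + 1)) := by
  sorry

/-! ### D (Formula.lean) -/

theorem fm_prog {R X : Type} [CommSemiring R] (D : ℕ) (f : Fm R X) (hf : f.depth ≤ D) :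
    ∃ p : List (Instr R X (Fin (D + 1))), p.length ≤ 2 ^ (D + 1) ∧
      ∀ w : X → R, exec w p 0 = f.eval w := by
  sorry

/-! ### E (Path.lean) -/

theorem path_depth (h n : ℕ) (hn : 2 ^ h ≤ n) : ¬ TDle (pathSc n) h univ := by
  sorry

theorem path_prog {R : Type} [CommSemiring R] (h m : ℕ) :
    ∃ (ρ : Type) (_ : Fintype ρ) (_ : DecidableEq ρ)
      (p : List (Instr R (CVar (2 ^ h + 1) (2 ^ h) m) ρ)) (o : ρ),
      Fintype.card ρ = (h + 2) * m + 3 ∧ p.length ≤ 10 * m ^ 2 * 2 ^ h ∧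
      ∀ w : CVar (2 ^ h + 1) (2 ^ h) m → R, exec w p o = netSum (pathSc (2 ^ h)) w := by
  sorry

end Pool.Agent.H564R3.RN
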