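import Pool.Agent.H564R3.RN.HistP
import Pool.Agent.H564R3.RD.Main
import Pool.Agent.H564R3.TS.Num
import Pool.Agent.H564R3.TS.Perm

/-! Randomised pure dynamic programs for the travelling salesman problem with little space. -/

set_option autoImplicit false

namespace Pool.Agent.H564R3.RN

open Finset
open Pool.Agent.H564R3.PW (Instr runs exec syms)
open Pool.Agent.H564R3.TS
open Pool.Agent.H564R3.RD (weights tests pick len M_sum M_len)

theorem tsp_ts {n : ℕ} {ρ : Type} [Fintype ρ] [DecidableEq ρ] {Λ : Type} [Fintype Λ] (e : ℝ)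
    (q : Λ → ℝ)
    (p : Λ → List (Instr (Tropical (WithTop ℝ)) (Fin (n + 2) × Fin (n + 2)) ρ)) (o : ρ)
    (h : RD.RandomTSP e q p o) (T : ℕ) (hT : ∀ l, (p l).length ≤ T) :
    (1 - 2 * e) * (4 : ℝ) ^ (n + 1) ≤ ((n : ℝ) + 2) * (T : ℝ) *
      (2 : ℝ) ^ (5 * Real.sqrt (((n : ℝ) + 1) *
        Real.logb 2 (2 * ((n : ℝ) + 2) ^ 2 * (Fintype.card ρ : ℝ))) + 7) := by
  classical
  obtain ⟨hq, hsum, hcor⟩ := h
  have he0 : 0 ≤ e := by
    have h1 := hcor (fun _ => 0)
    have h2 : (∑ l, if RD.Correct (p l) o (fun _ => 0) then q l else 0) ≤ ∑ l, q l := by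
      refine sum_le_sum fun l _ => ?_
      split_ifs
      · exact le_rfl
      · exact hq l
    have h3 : 1 - e ≤ 1 := by
      refine le_trans ?_ (h2.trans hsum.le)
      convert h1
    linarith
  obtain ⟨K, hK1, hK2⟩ := weights (tsup (n := n)) 2 (by norm_num)
  choose t₀ ht₀ using fun l => tests (p l) o
  obtain ⟨t, ht⟩ : ∃ t : ℕ, ∀ l, t₀ l ≤ t := ⟨univ.sup t₀, fun l => le_sup (mem_univ l)⟩
  set κ : Fin (n + 2) × Fin (n + 2) → ℕ := fun x => ∑ e ∈ tsup x, K e with hκ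
  set W : ℕ := ∑ e, K e with hW
  set κA : Finset (Fin (n + 2) × Fin (n + 2)) → Fin (n + 2) × Fin (n + 2) → ℕ :=
    fun A x => if x ∈ A then κ x else W + 1 with hκA
  set F : Finset (Finset (Fin (n + 2) × Fin (n + 2))) := (tours n).image arcs with hF
  have hFpos : n.factorial ≤ F.card := tsp_card n
  have hlen1 : ∀ f ∈ tours n, len (fun x => t * κ x) f = t * W := by
    intro f hf
    rw [M_len, ← mul_sum, hκ, M_sum (tsp_exact hf)]
  have h1 : ∀ l, RD.Correct (p l) o (fun x => t * κ x) →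
      ∀ u ∈ syms (p l) o, W ≤ ∑ x, u x * κ x := by
    rintro l ⟨f, hf, _, hv⟩
    refine (ht₀ l t (ht l) κ W).1 ?_
    rw [hv, hlen1 f hf]
  have h2 : ∀ l, ∀ A ∈ F, RD.Correct (p l) o (fun x => t * κ x) →
      RD.Correct (p l) o (fun x => t * κA A x) → ind A ∈ syms (p l) o := by
    intro l A hA hc1 hc2
    rw [hF, mem_image] at hA
    obtain ⟨g, hg, rfl⟩ := hA
    obtain ⟨f, hf, hmin, hv⟩ := hc2
    have hlg : len (fun x => t * κA (arcs g) x) g = t * W := by
      rw [M_len, ← mul_sum]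
      congr 1
      rw [hW, ← M_sum (tsp_exact hg) K]
      refine sum_congr rfl fun x hx => ?_
      rw [hκA]
      simp only [if_pos hx]
      rfl
    obtain ⟨u, hu, hle⟩ := (ht₀ l t (ht l) (κA (arcs g)) W).2 (by
      rw [hv]
      have := hmin g hg
      rw [hlg] at this
      exact_mod_cast this)
    have hge := h1 l hc1 u hu
    have hoff : ∀ x, x ∉ arcs g → u x = 0 := by
      intro x hx
      by_contra hux
      have h3 : u x * κA (arcs g) x ≤ ∑ x, u x * κA (arcs g) x :=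
        single_le_sum (f := fun x => u x * κA (arcs g) x) (fun _ _ => Nat.zero_le _) (mem_univ x)
      have h4 : κA (arcs g) x = W + 1 := by
        rw [hκA]
        simp only [if_neg hx]
      rw [h4] at h3
      have h5 : 1 * (W + 1) ≤ u x * (W + 1) := Nat.mul_le_mul_right _ (Nat.pos_of_ne_zero hux)
      omega
    have heq : ∑ x, u x * κA (arcs g) x = ∑ x, u x * κ x := by
      refine sum_congr rfl fun x _ => ?_
      by_cases hx : x ∈ arcs g
      · rw [hκA]
        simp only [if_pos hx]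
      · rw [hoff x hx, zero_mul, zero_mul]
    rw [heq] at hle
    have h6 := hK2 (arcs g) (tsp_exact hg) u hoff (le_antisymm hle hge)
    rw [← h6]
    exact hu
  obtain ⟨l, hl⟩ := pick q hq hsum e F (fun l => RD.Correct (p l) o (fun x => t * κ x))
    (fun l A => RD.Correct (p l) o (fun x => t * κA A x)) (by
      have := hcor (fun x => t * κ x)
      convert this using 3) (by
      intro A _
      have := hcor (fun x => t * κA A x)
      convert this using 3)
  rcases le_or_gt (1 - 2 * e) 0 with he | he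
  · refine (mul_nonpos_of_nonpos_of_nonneg he (by positivity)).trans (by positivity)
  · set F' := F.filter (fun A => RD.Correct (p l) o (fun x => t * κ x) ∧
      RD.Correct (p l) o (fun x => t * κA A x)) with hF'
    have hFr : (n.factorial : ℝ) ≤ (F.card : ℝ) := by exact_mod_cast hFpos
    have hfac : (0 : ℝ) < (n.factorial : ℝ) := by exact_mod_cast Nat.factorial_pos n
    have hcard : (1 - 2 * e) * (n.factorial : ℝ) ≤ (F'.card : ℝ) :=
      (mul_le_mul_of_nonneg_left hFr he.le).trans hl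
    have hne : 0 < F'.card := by
      have : (0 : ℝ) < (F'.card : ℝ) := lt_of_lt_of_le (mul_pos he hfac) hcard
      exact_mod_cast this
    obtain ⟨A₀, hA₀⟩ := card_pos.1 hne
    have hG := (mem_filter.1 hA₀).2.1
    have hmem : ∀ A ∈ F', ind A ∈ syms (p l) o := by
      intro A hA
      rw [hF', mem_filter] at hA
      exact h2 l A hA.1 hG hA.2.2
    have hF'e : ∀ A ∈ F', Exact tsup 2 univ A := by
      intro A hA
      have hA' := (mem_filter.1 hA).1
      rw [hF, mem_image] at hA'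
      obtain ⟨f, hf, rfl⟩ := hA'
      exact tsp_exact hf
    have hC : ∀ A ∈ F', ∑ x ∈ A, κ x = W := fun A hA => M_sum (hF'e A hA) K
    have hbi : ∀ A ∈ F', ∀ Y ⊆ A, ∑ x ∈ Y, κ x = ∑ e ∈ Y.biUnion tsup, K e := by
      intro A hA Y hY
      rw [hκ, sum_biUnion]
      intro x hx y hy hxy
      exact (hF'e A hA).disj x (hY hx) y (hY hy) hxy
    have hgen : ∀ A ∈ F', ∀ B ∈ F', ∀ Y ⊆ A, ∀ Z ⊆ B, ∑ x ∈ Y, κ x = ∑ x ∈ Z, κ x →
        Y.biUnion tsup = Z.biUnion tsup := by
      intro A hA B hB Y hY Z hZ h3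
      rw [hbi A hA Y hY, hbi B hB Z hZ] at h3
      exact hK1 _ _ h3
    have hT1 : 1 ≤ T := by
      refine le_trans ?_ (hT l)
      rcases Nat.eq_zero_or_pos (p l).length with h0 | h0
      · exfalso
        have h3 := hmem A₀ hA₀
        rw [List.length_eq_zero_iff.1 h0] at h3
        exact h3
      · exact h0
    set K₀ : ℕ := ⌈((n : ℝ) + 1) / (1 - 2 * e)⌉₊ with hK₀
    have hK₀1 : ((n : ℝ) + 1) / (1 - 2 * e) ≤ (K₀ : ℝ) := Nat.le_ceil _
    have hK₀2 : (K₀ : ℝ) * (1 - 2 * e) ≤ (n : ℝ) + 2 := by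
      have h3 : (K₀ : ℝ) < ((n : ℝ) + 1) / (1 - 2 * e) + 1 :=
        Nat.ceil_lt_add_one (by positivity)
      have h4 : (K₀ : ℝ) * (1 - 2 * e) ≤ (((n : ℝ) + 1) / (1 - 2 * e) + 1) * (1 - 2 * e) :=
        mul_le_mul_of_nonneg_right h3.le he.le
      have h5 : (((n : ℝ) + 1) / (1 - 2 * e) + 1) * (1 - 2 * e) = (n : ℝ) + 1 + (1 - 2 * e) := by
        field_simp
      rw [h5] at h4
      linarith
    have h4 := num_perm (n + 1) K₀ (Fintype.card ρ) T (Fintype.card_pos_iff.2 ⟨o⟩) hT1 (by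
      intro w H hw hH
      have h5 := main_bal tsup 2 (by norm_num) F' hF'e (p l) o hmem κ W hC (Or.inl (h1 l hG)) hgen
        Nat.factorial
        (fun P s G hP hG => tsp_count P s G hP hG) 4 (n + 1 + 1) (by norm_num) (by omega) (n + 1)
        (by simp [Fintype.card_sum]; ring) (fun x s hx hs => fact_ineq (n + 1) x s hx hs)
        w H hw ((hT l).trans hH)
      set B : ℕ := 2 ^ H * 4 ^ (3 * w) * ((H + 1) * (n + 1 + 1) * Fintype.card ρ) ^ ((n + 1) / w)
        with hB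
      have h6 : (F'.card : ℝ) * (4 : ℝ) ^ (n + 1) ≤ (B : ℝ) * (((n : ℝ) + 1) * (n.factorial : ℝ)) := by
        rw [Nat.factorial_succ] at h5
        exact_mod_cast h5
      have h7 : ((1 - 2 * e) * (4 : ℝ) ^ (n + 1)) * (n.factorial : ℝ) ≤
          ((B : ℝ) * ((n : ℝ) + 1)) * (n.factorial : ℝ) := by
        calc ((1 - 2 * e) * (4 : ℝ) ^ (n + 1)) * (n.factorial : ℝ)
            = ((1 - 2 * e) * (n.factorial : ℝ)) * (4 : ℝ) ^ (n + 1) := by ring
          _ ≤ (F'.card : ℝ) * (4 : ℝ) ^ (n + 1) := mul_le_mul_of_nonneg_right hcard (by positivity)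
          _ ≤ _ := h6
          _ = _ := by ring
      have h8 : (1 - 2 * e) * (4 : ℝ) ^ (n + 1) ≤ (B : ℝ) * ((n : ℝ) + 1) :=
        le_of_mul_le_mul_right h7 hfac
      have h9 : (4 : ℝ) ^ (n + 1) ≤ (K₀ : ℝ) * (B : ℝ) := by
        have h10 : (4 : ℝ) ^ (n + 1) ≤ (B : ℝ) * (((n : ℝ) + 1) / (1 - 2 * e)) := by
          rw [← mul_div_assoc, le_div_iff₀ he, mul_comm ((4 : ℝ) ^ (n + 1))]
          exact h8
        refine h10.trans ?_
        rw [mul_comm (K₀ : ℝ)]
        exact mul_le_mul_of_nonneg_left hK₀1 (Nat.cast_nonneg _)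
      exact_mod_cast h9)
    have e1 : ((n + 1 : ℕ) : ℝ) = (n : ℝ) + 1 := by push_cast; ring
    have e2 : (n : ℝ) + 1 + 1 = (n : ℝ) + 2 := by ring
    rw [e1, e2] at h4
    set Q : ℝ := (2 : ℝ) ^ (5 * Real.sqrt (((n : ℝ) + 1) *
        Real.logb 2 (2 * ((n : ℝ) + 2) ^ 2 * (Fintype.card ρ : ℝ))) + 7) with hQ
    have hQ0 : 0 ≤ Q := by positivity
    calc (1 - 2 * e) * (4 : ℝ) ^ (n + 1) ≤ (1 - 2 * e) * ((K₀ : ℝ) * (T : ℝ) * Q) :=
          mul_le_mul_of_nonneg_left h4 he.le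
      _ = ((K₀ : ℝ) * (1 - 2 * e)) * ((T : ℝ) * Q) := by ring
      _ ≤ ((n : ℝ) + 2) * ((T : ℝ) * Q) := mul_le_mul_of_nonneg_right hK₀2 (by positivity)
      _ = ((n : ℝ) + 2) * (T : ℝ) * Q := by ring

end Pool.Agent.H564R3.RN
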